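import Pool.Agent.K3h99.Leh2.Energy

/-!
The area and energy of the truncation of `U` at the heights `± K s`.
-/

set_option autoImplicit false

namespace Pool.Agent.K3h99.Leh

open Complex MeasureTheory Metric Set Filter Topology ComplexConjugate

noncomputable section

variable {ι : Type*} [Fintype ι]

/-- the gradient of `U` -/
def cf (α : ι → ℂ) (z : ℂ) : ℂ := ∑ i, q (rf (α i)) z

def cdr (α : ι → ℂ) (z : ℂ) : ℂ := ∑ i, rf (α i) / (1 - rf (α i) * z) ^ 2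

lemma hasDerivAt_cf {α : ι → ℂ} (ha : ∀ i, ‖α i‖ ≠ 1) {z : ℂ} (hz : ‖z‖ ≤ 1) :
    HasDerivAt (cf α) (cdr α z) z := by
  unfold cf cdr
  apply HasDerivAt.fun_sum
  intro i _
  exact hasDerivAt_q (one_sub_rf_ne (ha i) hz)

lemma cf_zero (α : ι → ℂ) : cf α 0 = 0 := by unfold cf q; simp

lemma Uf_zero (α : ι → ℂ) : Uf α 0 = ep α := by unfold Uf ep; simp

def h1f (α : ι → ℂ) (K : ℝ) (p : ℝ × ℝ) : ℝ := hd (K * p.1 + Uf α (Z p))
def h2f (α : ι → ℂ) (K : ℝ) (p : ℝ × ℝ) : ℝ := hd (Uf α (Z p) - K * p.1)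
def chi3 (α : ι → ℂ) (K : ℝ) (p : ℝ × ℝ) : ℝ := h1f α K p - h2f α K p
def kap (α : ι → ℂ) (K : ℝ) (p : ℝ × ℝ) : ℝ := h1f α K p + h2f α K p - 1

def phi3 (α : ι → ℂ) (K : ℝ) (p : ℝ × ℝ) : ℝ :=
  hc (K * p.1 + Uf α (Z p)) - hc (Uf α (Z p) - K * p.1) - K * p.1

def H3 (α : ι → ℂ) (K : ℝ) (p : ℝ × ℝ) : ℝ :=
  hc (K * p.1 + Uf α (Z p)) + hc (Uf α (Z p) - K * p.1) - Uf α (Z p)

lemma hd_mono : Monotone hd := by
  intro x y h
  have e : ∀ t : ℝ, hd t = min (max t 0) 1 := by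
    intro t
    unfold hd
    rcases le_total t 0 with h | h
    · rw [max_eq_right h, max_eq_right (by linarith)]; norm_num
    · rw [max_eq_left h]
      rcases le_total t 1 with h' | h'
      · rw [max_eq_right (by linarith), min_eq_left h']; ring
      · rw [max_eq_left (by linarith), min_eq_right h']; ring
  rw [e, e]
  exact min_le_min (max_le_max h le_rfl) le_rfl

lemma chi3_nonneg (α : ι → ℂ) {K : ℝ} (hK : 0 ≤ K) {p : ℝ × ℝ} (hp : 0 ≤ p.1) :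
    0 ≤ chi3 α K p := by
  unfold chi3 h1f h2f
  have h : 0 ≤ K * p.1 := by positivity
  have := hd_mono (show Uf α (Z p) - K * p.1 ≤ K * p.1 + Uf α (Z p) by linarith)
  linarith

lemma chi3_le_one (α : ι → ℂ) (K : ℝ) (p : ℝ × ℝ) : chi3 α K p ≤ 1 := by
  unfold chi3 h1f h2f
  have h1 := hd_le_one (K * p.1 + Uf α (Z p))
  have h2 := hd_nonneg (Uf α (Z p) - K * p.1)
  linarith

lemma abs_kap_le (α : ι → ℂ) (K : ℝ) (p : ℝ × ℝ) : |kap α K p| ≤ 1 - chi3 α K p := by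
  unfold kap chi3 h1f h2f
  have h1 := hd_le_one (K * p.1 + Uf α (Z p))
  have h2 := hd_nonneg (Uf α (Z p) - K * p.1)
  rw [abs_le]
  constructor <;> linarith

lemma hasFDerivAt_Uf' {α : ι → ℂ} (ha : ∀ i, ‖α i‖ ≠ 1) {p : ℝ × ℝ} (hp : 0 ≤ p.1) :
    HasFDerivAt (fun p => Uf α (Z p)) (lin (cf α (Z p))) p := hasFDerivAt_Uf ha hp

lemma hasFDerivAt_hp {α : ι → ℂ} (ha : ∀ i, ‖α i‖ ≠ 1) (K : ℝ) {p : ℝ × ℝ} (hp : 0 ≤ p.1) :
    HasFDerivAt (fun p : ℝ × ℝ => hc (K * p.1 + Uf α (Z p)))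
      (h1f α K p • (K • ContinuousLinearMap.fst ℝ ℝ ℝ + lin (cf α (Z p)))) p := by
  have h1 : HasFDerivAt (fun p : ℝ × ℝ => K * p.1 + Uf α (Z p))
      (K • ContinuousLinearMap.fst ℝ ℝ ℝ + lin (cf α (Z p))) p :=
    (hasFDerivAt_fst.const_mul K).add (hasFDerivAt_Uf' ha hp)
  exact (hasDerivAt_hc (K * p.1 + Uf α (Z p))).comp_hasFDerivAt p h1

lemma hasFDerivAt_hm {α : ι → ℂ} (ha : ∀ i, ‖α i‖ ≠ 1) (K : ℝ) {p : ℝ × ℝ} (hp : 0 ≤ p.1) :
    HasFDerivAt (fun p : ℝ × ℝ => hc (Uf α (Z p) - K * p.1))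
      (h2f α K p • (lin (cf α (Z p)) - K • ContinuousLinearMap.fst ℝ ℝ ℝ)) p := by
  have h1 : HasFDerivAt (fun p : ℝ × ℝ => Uf α (Z p) - K * p.1)
      (lin (cf α (Z p)) - K • ContinuousLinearMap.fst ℝ ℝ ℝ) p :=
    (hasFDerivAt_Uf' ha hp).sub (hasFDerivAt_fst.const_mul K)
  exact (hasDerivAt_hc (Uf α (Z p) - K * p.1)).comp_hasFDerivAt p h1

/-- the derivative of `phi3` -/
def phi3' (α : ι → ℂ) (K : ℝ) (p : ℝ × ℝ) : ℝ × ℝ →L[ℝ] ℝ :=
  h1f α K p • (K • ContinuousLinearMap.fst ℝ ℝ ℝ + lin (cf α (Z p))) -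
    h2f α K p • (lin (cf α (Z p)) - K • ContinuousLinearMap.fst ℝ ℝ ℝ) -
    K • ContinuousLinearMap.fst ℝ ℝ ℝ

lemma hasFDerivAt_phi3 {α : ι → ℂ} (ha : ∀ i, ‖α i‖ ≠ 1) (K : ℝ) {p : ℝ × ℝ} (hp : 0 ≤ p.1) :
    HasFDerivAt (phi3 α K) (phi3' α K p) p :=
  ((hasFDerivAt_hp ha K hp).sub (hasFDerivAt_hm ha K hp)).sub (hasFDerivAt_fst.const_mul K)

lemma hasFDerivAt_H3 {α : ι → ℂ} (ha : ∀ i, ‖α i‖ ≠ 1) (K : ℝ) {p : ℝ × ℝ} (hp : 0 ≤ p.1) :
    HasFDerivAt (H3 α K) (h1f α K p • (K • ContinuousLinearMap.fst ℝ ℝ ℝ + lin (cf α (Z p))) +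
    h2f α K p • (lin (cf α (Z p)) - K • ContinuousLinearMap.fst ℝ ℝ ℝ) -
    lin (cf α (Z p))) p :=
  ((hasFDerivAt_hp ha K hp).add (hasFDerivAt_hm ha K hp)).sub (hasFDerivAt_Uf' ha hp)

lemma hasFDerivAt_phi3_re {α : ι → ℂ} (ha : ∀ i, ‖α i‖ ≠ 1) (K : ℝ) {p : ℝ × ℝ} (hp : 0 ≤ p.1) :
    HasFDerivAt (fun p => phi3 α K p * (cf α (Z p)).re)
      (phi3 α K p • lin (-(Z p * cdr α (Z p))) + (cf α (Z p)).re • phi3' α K p) p :=
  (hasFDerivAt_phi3 ha K hp).mul (hasFDerivAt_re (hasDerivAt_cf ha (Z_norm_le hp)))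

lemma hasFDerivAt_phi3_im {α : ι → ℂ} (ha : ∀ i, ‖α i‖ ≠ 1) (K : ℝ) {p : ℝ × ℝ} (hp : 0 ≤ p.1) :
    HasFDerivAt (fun p => phi3 α K p * (cf α (Z p)).im)
      (phi3 α K p • lin (Complex.I * (Z p * cdr α (Z p))) + (cf α (Z p)).im • phi3' α K p) p :=
  (hasFDerivAt_phi3 ha K hp).mul (hasFDerivAt_im (hasDerivAt_cf ha (Z_norm_le hp)))

lemma C0_U {α : ι → ℂ} (ha : ∀ i, ‖α i‖ ≠ 1) : C0 (fun p => Uf α (Z p)) :=
  fun _ hp => (hasFDerivAt_Uf ha hp).continuousAt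

lemma C0_h1 {α : ι → ℂ} (ha : ∀ i, ‖α i‖ ≠ 1) (K : ℝ) : C0 (h1f α K) := by
  intro p hp
  have h2 : ContinuousAt (fun p : ℝ × ℝ => K * p.1 + Uf α (Z p)) p := by
    have := C0_U ha p hp
    fun_prop
  exact continuous_hd.continuousAt.comp h2

lemma C0_h2 {α : ι → ℂ} (ha : ∀ i, ‖α i‖ ≠ 1) (K : ℝ) : C0 (h2f α K) := by
  intro p hp
  have h2 : ContinuousAt (fun p : ℝ × ℝ => Uf α (Z p) - K * p.1) p := by
    have := C0_U ha p hp
    fun_prop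
  exact continuous_hd.continuousAt.comp h2

lemma C0_chi3 {α : ι → ℂ} (ha : ∀ i, ‖α i‖ ≠ 1) (K : ℝ) : C0 (chi3 α K) :=
  (C0_h1 ha K).sub (C0_h2 ha K)

lemma C0_kap {α : ι → ℂ} (ha : ∀ i, ‖α i‖ ≠ 1) (K : ℝ) : C0 (kap α K) :=
  ((C0_h1 ha K).add (C0_h2 ha K)).sub (C0.const 1)

lemma continuousAt_cf {α : ι → ℂ} (ha : ∀ i, ‖α i‖ ≠ 1) {p : ℝ × ℝ} (hp : 0 ≤ p.1) :
    ContinuousAt (fun p => cf α (Z p)) p :=
  (hasFDerivAt_comp_Z (hasDerivAt_cf ha (Z_norm_le hp))).continuousAt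

lemma C0_cre {α : ι → ℂ} (ha : ∀ i, ‖α i‖ ≠ 1) : C0 (fun p => (cf α (Z p)).re) :=
  fun _ hp => Complex.continuous_re.continuousAt.comp (continuousAt_cf ha hp)

lemma C0_csq {α : ι → ℂ} (ha : ∀ i, ‖α i‖ ≠ 1) : C0 (fun p => ‖cf α (Z p)‖ ^ 2) :=
  fun _ hp => (continuousAt_cf ha hp).norm.pow 2

lemma phi3_zero (α : ι → ℂ) (K θ : ℝ) : phi3 α K (0, θ) = 0 := by
  unfold phi3; simp

theorem star3 {α : ι → ℂ} (ha : ∀ i, ‖α i‖ ≠ 1) (K S : ℝ) (hS : 0 ≤ S) :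
    ∫ s in (0:ℝ)..S, ∫ θ in (0:ℝ)..(2 * Real.pi),
      (chi3 α K (s, θ) * ‖cf α (Z (s, θ))‖ ^ 2 + K * (kap α K (s, θ) * (cf α (Z (s, θ))).re)) =
    ∫ θ in (0:ℝ)..(2 * Real.pi), phi3 α K (S, θ) * (cf α (Z (S, θ))).re := by
  set f : ℝ × ℝ → ℝ := fun p => phi3 α K p * (cf α (Z p)).re with hf
  set g : ℝ × ℝ → ℝ := fun p => phi3 α K p * (cf α (Z p)).im with hg
  set f' : ℝ × ℝ → ℝ × ℝ →L[ℝ] ℝ := fun p =>
    (phi3 α K p • lin (-(Z p * cdr α (Z p))) + (cf α (Z p)).re • phi3' α K p) with hf'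
  set g' : ℝ × ℝ → ℝ × ℝ →L[ℝ] ℝ := fun p =>
    (phi3 α K p • lin (Complex.I * (Z p * cdr α (Z p))) + (cf α (Z p)).im • phi3' α K p) with hg'
  have hdiv : ∀ p : ℝ × ℝ, f' p (1, 0) + g' p (0, 1) =
      chi3 α K p * ‖cf α (Z p)‖ ^ 2 + K * (kap α K p * (cf α (Z p)).re) := by
    intro p
    rw [hf', hg', ← Complex.normSq_eq_norm_sq, Complex.normSq_apply]
    unfold phi3' chi3 kap
    simp
    ring
  have hmem : ∀ p ∈ (uIcc (0:ℝ) S) ×ˢ (uIcc (0:ℝ) (2 * Real.pi)), 0 ≤ p.1 := by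
    intro p hp
    rw [uIcc_of_le hS] at hp
    exact hp.1.1
  have hcomp : IsCompact ((uIcc (0:ℝ) S) ×ˢ (uIcc (0:ℝ) (2 * Real.pi))) := isCompact_uIcc.prod isCompact_uIcc
  have h := integral2_divergence_prod_of_hasFDerivAt f g f' g' 0 0 S (2 * Real.pi)
    (fun p hp => (hasFDerivAt_phi3_re ha K (hmem p hp)).continuousAt.continuousWithinAt)
    (fun p hp => (hasFDerivAt_phi3_im ha K (hmem p hp)).continuousAt.continuousWithinAt)
    (fun p hp => by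
      rw [min_eq_left hS] at hp
      exact hasFDerivAt_phi3_re ha K hp.1.1.le)
    (fun p hp => by
      rw [min_eq_left hS] at hp
      exact hasFDerivAt_phi3_im ha K hp.1.1.le)
    (by
      simp only [hdiv]
      apply ContinuousOn.integrableOn_compact hcomp
      intro p hp
      apply ContinuousAt.continuousWithinAt
      exact (((C0_chi3 ha K).mul (C0_csq ha)).add
        (((C0_kap ha K).mul (C0_cre ha)).const_mul K)) p (hmem p hp))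
  simp only [hdiv] at h
  rw [h]
  have e1 : ∫ x in (0:ℝ)..S, g (x, 2 * Real.pi) = ∫ x in (0:ℝ)..S, g (x, 0) := by
    apply intervalIntegral.integral_congr
    intro x _
    simp only [hg]
    unfold phi3
    rw [Z_two_pi]
  have e2 : ∫ y in (0:ℝ)..(2 * Real.pi), f (0, y) = 0 := by
    have : ∫ y in (0:ℝ)..(2 * Real.pi), f (0, y) = ∫ _y in (0:ℝ)..(2 * Real.pi), (0:ℝ) := by
      apply intervalIntegral.integral_congr
      intro x _
      simp only [hf]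
      rw [phi3_zero, zero_mul]
    rw [this]; simp
  rw [e1, e2]
  simp [hf]

lemma hasDerivAt_H3_ray {α : ι → ℂ} (ha : ∀ i, ‖α i‖ ≠ 1) (K θ : ℝ) {s : ℝ} (hs : 0 ≤ s) :
    HasDerivAt (fun s => H3 α K (s, θ))
      (K * chi3 α K (s, θ) + kap α K (s, θ) * (cf α (Z (s, θ))).re) s := by
  have h1 : HasDerivAt (fun s : ℝ => (s, θ)) ((1:ℝ), (0:ℝ)) s :=
    (hasDerivAt_id s).prodMk (hasDerivAt_const s θ)
  have h2 := (hasFDerivAt_H3 ha K (p := (s, θ)) hs).comp_hasDerivAt s h1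
  refine h2.congr_deriv ?_
  unfold chi3 kap
  simp
  ring

lemma hasDerivAt_phi3_ray {α : ι → ℂ} (ha : ∀ i, ‖α i‖ ≠ 1) (K θ : ℝ) {s : ℝ} (hs : 0 ≤ s) :
    HasDerivAt (fun s => phi3 α K (s, θ))
      (chi3 α K (s, θ) * (cf α (Z (s, θ))).re + K * kap α K (s, θ)) s := by
  have h1 : HasDerivAt (fun s : ℝ => (s, θ)) ((1:ℝ), (0:ℝ)) s :=
    (hasDerivAt_id s).prodMk (hasDerivAt_const s θ)
  have h2 := (hasFDerivAt_phi3 ha K (p := (s, θ)) hs).comp_hasDerivAt s h1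
  refine h2.congr_deriv ?_
  unfold chi3 kap phi3'
  simp
  ring

theorem ray3 {α : ι → ℂ} (ha : ∀ i, ‖α i‖ ≠ 1) (K θ : ℝ) {S : ℝ} (hS : 0 ≤ S) :
    ∫ s in (0:ℝ)..S, kap α K (s, θ) * (cf α (Z (s, θ))).re =
      H3 α K (S, θ) - H3 α K (0, θ) - K * ∫ s in (0:ℝ)..S, chi3 α K (s, θ) := by
  have i1 := ((C0_chi3 ha K).const_mul K).int_s le_rfl hS θ
  have i2 := ((C0_kap ha K).mul (C0_cre ha)).int_s le_rfl hS θ
  have h1 := intervalIntegral.integral_eq_sub_of_hasDerivAt (a := 0) (b := S)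
    (f := fun s => H3 α K (s, θ))
    (f' := fun s => K * chi3 α K (s, θ) + kap α K (s, θ) * (cf α (Z (s, θ))).re)
    (fun s hs => by
      rw [uIcc_of_le hS] at hs
      exact hasDerivAt_H3_ray ha K θ hs.1) (i1.add i2)
  rw [intervalIntegral.integral_add i1 i2, intervalIntegral.integral_const_mul] at h1
  linarith

theorem far3 {α : ι → ℂ} (ha : ∀ i, ‖α i‖ ≠ 1) {K : ℝ} (hK : 0 < K) :
    ∀ᶠ S in (atTop : Filter ℝ), ∀ θ : ℝ, |Uf α (Z (S, θ)) - ep α| ≤ 1 / 4 ∧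
      1 ≤ K * S - Uf α (Z (S, θ)) ∧ 1 ≤ K * S + Uf α (Z (S, θ)) ∧
      |phi3 α K (S, θ) * (cf α (Z (S, θ))).re| ≤ K / 4 := by
  have hep := ep_nonneg α
  have hU : ContinuousAt (Uf α) 0 := by
    unfold Uf
    refine tendsto_finsetSum _ fun i _ => ?_
    exact (continuousAt_log_one_sub (rf (α i))).add continuousAt_const
  have h1 : ∀ᶠ z in 𝓝 (0:ℂ), |Uf α z - ep α| < 1 / 4 := by
    have hc : ContinuousAt (fun z => |Uf α z - ep α|) 0 := (hU.sub continuousAt_const).abs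
    exact hc.eventually (gt_mem_nhds (by simp only [Uf_zero]; norm_num))
  have h2 : ∀ᶠ z in 𝓝 (0:ℂ), ‖cf α z‖ < K / (4 * (ep α + 1)) := by
    have hc : ContinuousAt (fun z => ‖cf α z‖) 0 := (hasDerivAt_cf ha (by simp)).continuousAt.norm
    refine hc.eventually (gt_mem_nhds ?_)
    simp only [cf_zero, norm_zero]
    positivity
  obtain ⟨r, hr, h⟩ := Metric.eventually_nhds_iff.1 (h1.and h2)
  have t1 : ∀ᶠ S in (atTop : Filter ℝ), Real.exp (-S) < r :=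
    Real.tendsto_exp_neg_atTop_nhds_zero.eventually (gt_mem_nhds hr)
  have t3 : ∀ᶠ S in (atTop : Filter ℝ), (1 + (ep α + 1 / 4)) / K ≤ S := eventually_ge_atTop _
  filter_upwards [t1, t3] with S e1 e3 θ
  have hn : ‖Z (S, θ)‖ = Real.exp (-S) := norm_Z (S, θ)
  obtain ⟨a1, a2⟩ := h (y := Z (S, θ)) (by rw [dist_zero_right, hn]; exact e1)
  rw [div_le_iff₀ hK] at e3
  have a3 := abs_le.1 a1.le
  have b1 : 1 ≤ K * S - Uf α (Z (S, θ)) := by linarith [a3.2]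
  have b2 : 1 ≤ K * S + Uf α (Z (S, θ)) := by linarith [a3.1]
  refine ⟨a1.le, b1, b2, ?_⟩
  have c1 : phi3 α K (S, θ) = Uf α (Z (S, θ)) - 1 / 2 := by
    unfold phi3
    rw [hc_of_one_le b2, hc_of_nonpos (by simp only; linarith)]
    simp only
    ring
  rw [abs_mul, c1]
  have c2 : |Uf α (Z (S, θ)) - 1 / 2| ≤ ep α + 1 := by
    rw [abs_le]; constructor <;> linarith [a3.1, a3.2]
  have c3 : |(cf α (Z (S, θ))).re| ≤ K / (4 * (ep α + 1)) :=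
    (Complex.abs_re_le_norm _).trans a2.le
  calc |Uf α (Z (S, θ)) - 1 / 2| * |(cf α (Z (S, θ))).re| ≤
      (ep α + 1) * (K / (4 * (ep α + 1))) := mul_le_mul c2 c3 (abs_nonneg _) (by positivity)
    _ = K / 4 := by field_simp

/-- the area and energy bound for the truncation of `U` -/
theorem har_energy {α : ι → ℂ} (ha : ∀ i, ‖α i‖ ≠ 1) {K : ℝ} (hK : 0 < K) {S : ℝ} (hS : 0 ≤ S)
    (hfar : ∀ θ : ℝ, |Uf α (Z (S, θ)) - ep α| ≤ 1 / 4 ∧
      1 ≤ K * S - Uf α (Z (S, θ)) ∧ 1 ≤ K * S + Uf α (Z (S, θ)) ∧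
      |phi3 α K (S, θ) * (cf α (Z (S, θ))).re| ≤ K / 4) :
    K * (∫ θ in (0:ℝ)..(2 * Real.pi), ∫ s in (0:ℝ)..S, (1 - chi3 α K (s, θ))) +
      (1 / K) * (∫ θ in (0:ℝ)..(2 * Real.pi), ∫ s in (0:ℝ)..S,
        chi3 α K (s, θ) * ‖cf α (Z (s, θ))‖ ^ 2) ≤
      (∫ θ in (0:ℝ)..(2 * Real.pi), |Uf α (Z (0, θ))|) + 2 * Real.pi * (3 / 4) := by
  have hpi : (0:ℝ) ≤ 2 * Real.pi := by positivity
  set b := 2 * Real.pi with hb
  have hst := star3 ha K S hS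
  rw [← hb] at hst
  have cE := (C0_chi3 ha K).mul (C0_csq ha)
  have cA := (C0_kap ha K).mul (C0_cre ha)
  have hX : ∫ s in (0:ℝ)..S, ∫ θ in (0:ℝ)..b,
      (chi3 α K (s, θ) * ‖cf α (Z (s, θ))‖ ^ 2 + K * (kap α K (s, θ) * (cf α (Z (s, θ))).re)) =
      (∫ s in (0:ℝ)..S, ∫ θ in (0:ℝ)..b, chi3 α K (s, θ) * ‖cf α (Z (s, θ))‖ ^ 2) +
      K * (∫ s in (0:ℝ)..S, ∫ θ in (0:ℝ)..b, kap α K (s, θ) * (cf α (Z (s, θ))).re) := by
    rw [← intervalIntegral.integral_const_mul, ← intervalIntegral.integral_add]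
    · apply intervalIntegral.integral_congr
      intro s hs
      rw [uIcc_of_le hS] at hs
      simp only []
      rw [← intervalIntegral.integral_const_mul, ← intervalIntegral.integral_add]
      · exact cE.int_θ hs.1 0 b
      · exact (cA.int_θ hs.1 0 b).const_mul K
    · exact cE.int_s_int hS hpi
    · exact (cA.int_s_int hS hpi).const_mul K
  rw [hX, cE.swap hS b, cA.swap hS b] at hst
  set E := ∫ θ in (0:ℝ)..b, ∫ s in (0:ℝ)..S, chi3 α K (s, θ) * ‖cf α (Z (s, θ))‖ ^ 2 with hE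
  have hbd : ∫ θ in (0:ℝ)..b, phi3 α K (S, θ) * (cf α (Z (S, θ))).re ≤ b * (K / 4) := by
    have h1 : ‖∫ θ in (0:ℝ)..b, phi3 α K (S, θ) * (cf α (Z (S, θ))).re‖ ≤ (K / 4) * |b - 0| := by
      apply intervalIntegral.norm_integral_le_of_norm_le_const
      intro θ _
      rw [Real.norm_eq_abs]
      exact (hfar θ).2.2.2
    rw [sub_zero, abs_of_nonneg hpi, Real.norm_eq_abs] at h1
    have := le_abs_self (∫ θ in (0:ℝ)..b, phi3 α K (S, θ) * (cf α (Z (S, θ))).re)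
    linarith
  have hUc : IntervalIntegrable (fun θ => |Uf α (Z (0, θ))|) volume 0 b := by
    apply ContinuousOn.intervalIntegrable
    intro θ _
    have h1 : ContinuousAt (fun θ : ℝ => ((0:ℝ), θ)) θ := by fun_prop
    exact ((ContinuousAt.comp (f := fun θ : ℝ => ((0:ℝ), θ))
      (C0_U ha (0, θ) le_rfl) h1).abs).continuousWithinAt
  have hR : K * (∫ θ in (0:ℝ)..b, ∫ s in (0:ℝ)..S, (1 - chi3 α K (s, θ))) -
      (∫ θ in (0:ℝ)..b, (|Uf α (Z (0, θ))| + 1 / 2)) ≤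
      ∫ θ in (0:ℝ)..b, ∫ s in (0:ℝ)..S, kap α K (s, θ) * (cf α (Z (s, θ))).re := by
    rw [← intervalIntegral.integral_const_mul, ← intervalIntegral.integral_sub]
    · apply intervalIntegral.integral_mono_on hpi
      · apply IntervalIntegrable.sub
        · exact ((((C0.const 1).sub (C0_chi3 ha K)).int_θ_int hS b).const_mul K)
        · exact hUc.add (by simp)
      · exact cA.int_θ_int hS b
      · intro θ _
        obtain ⟨e1, e2, e3, e4⟩ := hfar θ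
        rw [ray3 ha K θ hS, intervalIntegral.integral_sub (by simp)
          ((C0_chi3 ha K).int_s le_rfl hS θ)]
        have f1 : H3 α K (S, θ) = K * S - 1 / 2 := by
          unfold H3
          rw [hc_of_one_le e3, hc_of_nonpos (by linarith)]
          ring
        have f2 : H3 α K (0, θ) ≤ |Uf α (Z (0, θ))| := by
          have f3 : H3 α K (0, θ) = hc (Uf α (Z (0, θ))) + hc (Uf α (Z (0, θ))) -
              Uf α (Z (0, θ)) := by
            unfold H3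
            simp
          rw [f3]
          rcases le_total (Uf α (Z (0, θ))) 0 with h | h
          · rw [hc_of_nonpos h, abs_of_nonpos h]; linarith
          · have := hc_le h
            rw [abs_of_nonneg h]; linarith
        rw [f1]
        rw [intervalIntegral.integral_const, smul_eq_mul, mul_one, sub_zero, mul_sub]
        linarith
    · exact (((C0.const 1).sub (C0_chi3 ha K)).int_θ_int hS b).const_mul K
    · exact hUc.add (by simp)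
  have hsplit : ∫ θ in (0:ℝ)..b, (|Uf α (Z (0, θ))| + 1 / 2) =
      (∫ θ in (0:ℝ)..b, |Uf α (Z (0, θ))|) + b * (1 / 2) := by
    rw [intervalIntegral.integral_add hUc (by simp)]
    simp
  rw [hsplit] at hR
  set AA := ∫ θ in (0:ℝ)..b, ∫ s in (0:ℝ)..S, kap α K (s, θ) * (cf α (Z (s, θ))).re with hAA
  have h5 : (1 / K) * E + AA ≤ b / 4 := by
    have h6 : E + K * AA ≤ b * (K / 4) := by linarith
    have h7 : (1 / K) * E + AA = (E + K * AA) / K := by field_simp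
    rw [h7, div_le_iff₀ hK]
    linarith
  linarith

end

end Pool.Agent.K3h99.Leh
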