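import Pool.Agent.K3h99.Leh2.Pars2
import Pool.Agent.K3h99.Leh2.Har

/-!
The difference of two logarithmic derivatives and its half power on the circle.
-/

set_option autoImplicit false

namespace Pool.Agent.K3h99.Leh

open Complex MeasureTheory Metric Set Filter Topology ComplexConjugate InnerProductSpace Real
open Pool.Agent.GapMahler

noncomputable section

variable {ι κ : Type*} [Fintype ι] [Fintype κ]

/-- differences of the power sums -/
def dl (α : ι → ℂ) (β : κ → ℂ) (k : ℕ) : ℂ := pk α k - pk β k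

def Qd (α : ι → ℂ) (β : κ → ℂ) (L : ℕ) (z : ℂ) : ℂ := Q3 α L z - Q3 β L z

lemma Qd_split (α : ι → ℂ) (β : κ → ℂ) (L : ℕ) (z : ℂ) :
    Qd α β L z = pg (dl α β) L z - ∑ i, q (α i) z + ∑ j, q (β j) z := by
  unfold Qd Q3 pg pf dl
  have h : ∑ k ∈ Finset.Ico 1 L, (pk α k - pk β k) * z ^ k =
      ∑ k ∈ Finset.Ico 1 L, pk α k * z ^ k - ∑ k ∈ Finset.Ico 1 L, pk β k * z ^ k := by
    rw [← Finset.sum_sub_distrib]
    apply Finset.sum_congr rfl; intro k _; ring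
  rw [h]; ring

def Nd [DecidableEq ι] [DecidableEq κ] (α : ι → ℂ) (β : κ → ℂ) (L : ℕ) : Polynomial ℂ :=
  Np α L * (∏ j, (1 - Polynomial.C (β j) * Polynomial.X)) -
    Np β L * (∏ i, (1 - Polynomial.C (α i) * Polynomial.X))

lemma eval_prod (α : ι → ℂ) (z : ℂ) :
    (∏ i, (1 - Polynomial.C (α i) * Polynomial.X)).eval z = ∏ i, (1 - α i * z) := by
  rw [Polynomial.eval_prod]
  simp only [Polynomial.eval_sub, Polynomial.eval_one, Polynomial.eval_mul, Polynomial.eval_C,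
    Polynomial.eval_X]

lemma Qd_eq [DecidableEq ι] [DecidableEq κ] {α : ι → ℂ} {β : κ → ℂ} {z : ℂ} (hn : NZ α z)
    (hm : NZ β z) {L : ℕ} (hL : 1 ≤ L) :
    Qd α β L z = -(z ^ L * (Nd α β L).eval z / ((∏ i, (1 - α i * z)) * ∏ j, (1 - β j * z))) := by
  have h1 := prod_NZ hn
  have h2 := prod_NZ hm
  unfold Qd
  rw [Q3_eq hn hL, Q3_eq hm hL]
  unfold Nd
  rw [Polynomial.eval_sub, Polynomial.eval_mul, Polynomial.eval_mul, eval_prod, eval_prod]
  generalize ∏ i, (1 - α i * z) = A at h1 ⊢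
  generalize ∏ j, (1 - β j * z) = B at h2 ⊢
  field_simp
  ring

lemma Uf_elim (α : ι → ℂ) (β : κ → ℂ) (z : ℂ) : Uf (Sum.elim α β) z = Uf α z + Uf β z := by
  unfold Uf
  rw [Fintype.sum_sum_type]
  simp

omit [Fintype ι] [Fintype κ] in
lemma ne_elim {α : ι → ℂ} {β : κ → ℂ} (ha : ∀ i, ‖α i‖ ≠ 1) (hb : ∀ j, ‖β j‖ ≠ 1) :
    ∀ x, ‖Sum.elim α β x‖ ≠ 1 := by
  rintro (i | j)
  · exact ha i
  · exact hb j

/-- the half power of `|Qd|`, divided by its vanishing factor -/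
def YY [DecidableEq ι] [DecidableEq κ] (α : ι → ℂ) (β : κ → ℂ) (L : ℕ) (z : ℂ) : ℝ :=
  Yf (Sum.elim α β) (Nd α β L) z

lemma YY_nonneg [DecidableEq ι] [DecidableEq κ] (α : ι → ℂ) (β : κ → ℂ) (L : ℕ) (z : ℂ) :
    0 ≤ YY α β L z := Yf_nonneg _ _ _

lemma sqrt_Qd [DecidableEq ι] [DecidableEq κ] {α : ι → ℂ} {β : κ → ℂ} {p : ℝ × ℝ}
    (hn : NZ α (Z p)) (hm : NZ β (Z p)) {L : ℕ} (hL : 1 ≤ L) :
    √‖Qd α β L (Z p)‖ = Real.exp ((gf α (Z p) + gf β (Z p) - L * p.1) / 2) * YY α β L (Z p) := by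
  have h1 : ‖Qd α β L (Z p)‖ = Real.exp (gf α (Z p) + gf β (Z p) - L * p.1) *
      (‖(Nd α β L).eval (Z p)‖ * Real.exp (-Uf (Sum.elim α β) (Z p))) := by
    rw [Qd_eq hn hm hL, norm_neg, norm_div, norm_mul, norm_mul, norm_pow, norm_Z, norm_prod_eq hn,
      norm_prod_eq hm, gf_eq, gf_eq, Uf_elim, ← Real.exp_nat_mul, div_eq_mul_inv, ← Real.exp_add,
      ← Real.exp_neg]
    have e : Real.exp (Uf α (Z p) - Vf α (Z p) + (Uf β (Z p) - Vf β (Z p)) - L * p.1) *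
        Real.exp (-(Uf α (Z p) + Uf β (Z p))) =
        Real.exp (L * -p.1) * Real.exp (-(Vf α (Z p) + Vf β (Z p))) := by
      rw [← Real.exp_add, ← Real.exp_add]; congr 1; ring
    linear_combination (-‖(Nd α β L).eval (Z p)‖) * e
  have h2 : √(Real.exp (gf α (Z p) + gf β (Z p) - L * p.1)) =
      Real.exp ((gf α (Z p) + gf β (Z p) - L * p.1) / 2) := by
    rw [Real.sqrt_eq_iff_mul_self_eq (Real.exp_pos _).le (Real.exp_pos _).le, ← Real.exp_add]
    congr 1; ring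
  unfold YY Yf
  rw [h1, Real.sqrt_mul (Real.exp_pos _).le, h2]

lemma YY_circle [DecidableEq ι] [DecidableEq κ] {α : ι → ℂ} {β : κ → ℂ} (ha : ∀ i, ‖α i‖ ≠ 1)
    (hb : ∀ j, ‖β j‖ ≠ 1) {L : ℕ} (hL : 1 ≤ L) (θ : ℝ) :
    YY α β L (Z (0, θ)) = √‖Qd α β L (Z (0, θ))‖ := by
  have hz : ‖Z (0, θ)‖ = 1 := by rw [norm_Z]; simp
  rw [sqrt_Qd (NZ_circle ha hz) (NZ_circle hb hz) hL, gf_circle ha hz, gf_circle hb hz]
  simp

/-- the full circle bound for `|Qd| ^ (1/2)` -/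
theorem circle_YY [DecidableEq ι] [DecidableEq κ] {α : ι → ℂ} {β : κ → ℂ} (ha : ∀ i, ‖α i‖ ≠ 1)
    (hb : ∀ j, ‖β j‖ ≠ 1) {L : ℕ} (hL : 1 ≤ L) :
    ∫ θ in (0:ℝ)..(2 * π), YY α β L (Z (0, θ)) ≤
      2 * π * (4 * √(Fintype.card ι) + 4 * √(Fintype.card κ) + √(L * (1 + Bg (dl α β) L))) := by
  have hpi : (0:ℝ) ≤ 2 * π := by positivity
  have hZ0 : ∀ θ, ‖Z (0, θ)‖ = 1 := fun θ => by rw [norm_Z]; simp
  have hZc : Continuous (fun θ : ℝ => Z (0, θ)) := continuous_Z.comp (by fun_prop)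
  have hc1 : Continuous (fun θ : ℝ => √‖pg (dl α β) L (Z (0, θ))‖) :=
    ((continuous_pg (dl α β) L).comp hZc).norm.sqrt
  have hc2 : Continuous (fun θ : ℝ => √‖∑ i, q (α i) (Z (0, θ))‖) := by
    apply Continuous.sqrt
    apply Continuous.norm
    apply continuous_finsetSum
    intro i _
    unfold q
    apply Continuous.div
    · fun_prop
    · fun_prop
    · intro θ; exact NZ_circle ha (hZ0 θ) i
  have hc4 : Continuous (fun θ : ℝ => √‖∑ j, q (β j) (Z (0, θ))‖) := by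
    apply Continuous.sqrt
    apply Continuous.norm
    apply continuous_finsetSum
    intro i _
    unfold q
    apply Continuous.div
    · fun_prop
    · fun_prop
    · intro θ; exact NZ_circle hb (hZ0 θ) i
  have hc3 : Continuous (fun θ : ℝ => YY α β L (Z (0, θ))) :=
    (continuousOn_Yf (ne_elim ha hb) (Nd α β L)).comp_continuous hZc
      (fun θ => by simpa using (hZ0 θ).le)
  calc ∫ θ in (0:ℝ)..(2 * π), YY α β L (Z (0, θ))
      ≤ ∫ θ in (0:ℝ)..(2 * π), ((√‖∑ i, q (α i) (Z (0, θ))‖ + √‖∑ j, q (β j) (Z (0, θ))‖) +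
          √‖pg (dl α β) L (Z (0, θ))‖) := by
        apply intervalIntegral.integral_mono_on hpi (hc3.intervalIntegrable _ _)
          (((hc2.add hc4).add hc1).intervalIntegrable _ _)
        intro θ _
        rw [YY_circle ha hb hL]
        have h1 : ‖Qd α β L (Z (0, θ))‖ ≤ (‖∑ i, q (α i) (Z (0, θ))‖ + ‖∑ j, q (β j) (Z (0, θ))‖) +
            ‖pg (dl α β) L (Z (0, θ))‖ := by
          rw [Qd_split]
          have h2 := norm_add_le (pg (dl α β) L (Z (0, θ)) - ∑ i, q (α i) (Z (0, θ)))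
            (∑ j, q (β j) (Z (0, θ)))
          have h3 := norm_sub_le (pg (dl α β) L (Z (0, θ))) (∑ i, q (α i) (Z (0, θ)))
          linarith
        refine (Real.sqrt_le_sqrt h1).trans ?_
        refine (sqrt_add_le' (by positivity) (norm_nonneg _)).trans ?_
        exact add_le_add (sqrt_add_le' (norm_nonneg _) (norm_nonneg _)) le_rfl
    _ = ((∫ θ in (0:ℝ)..(2 * π), √‖∑ i, q (α i) (Z (0, θ))‖) +
          (∫ θ in (0:ℝ)..(2 * π), √‖∑ j, q (β j) (Z (0, θ))‖)) +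
          (∫ θ in (0:ℝ)..(2 * π), √‖pg (dl α β) L (Z (0, θ))‖) := by
        have i1 := intervalIntegral.integral_add (μ := volume) (a := 0) (b := 2 * π)
          (f := fun θ : ℝ => √‖∑ i, q (α i) (Z (0, θ))‖ + √‖∑ j, q (β j) (Z (0, θ))‖)
          (g := fun θ => √‖pg (dl α β) L (Z (0, θ))‖)
          ((hc2.add hc4).intervalIntegrable _ _) (hc1.intervalIntegrable _ _)
        have i2 := intervalIntegral.integral_add (μ := volume) (a := 0) (b := 2 * π)
          (f := fun θ : ℝ => √‖∑ i, q (α i) (Z (0, θ))‖)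
          (g := fun θ => √‖∑ j, q (β j) (Z (0, θ))‖)
          (hc2.intervalIntegrable _ _) (hc4.intervalIntegrable _ _)
        rw [i1, i2]
    _ ≤ _ := by
        have h1 := kol_F ha
        have h3 := kol_F hb
        have h2 := circle_sqrt_pg (dl α β) hL
        linarith

end

end Pool.Agent.K3h99.Leh
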