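import Pool.Agent.K3h99.Leh.Ray
import Pool.Agent.K3h99.Leh2.Circ2

/-!
The growth estimate along a ray, two polynomials.
-/

set_option autoImplicit false

namespace Pool.Agent.K3h99.Leh

open Complex MeasureTheory Metric Set Filter Topology ComplexConjugate InnerProductSpace Real

noncomputable section

variable {ι κ : Type*} [Fintype ι] [Fintype κ]

/-- derivative of `Pg` -/
def Pgd (δ : ℕ → ℂ) (L : ℕ) (z : ℂ) : ℂ :=
  ∑ k ∈ Finset.Ico 1 L, (δ k / k) * (k * z ^ (k - 1))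

lemma hasDerivAt_Pg (δ : ℕ → ℂ) (L : ℕ) (z : ℂ) : HasDerivAt (Pg δ L) (Pgd δ L z) z := by
  unfold Pg Pgd
  apply HasDerivAt.fun_sum
  intro k _
  exact (hasDerivAt_pow k z).const_mul _

lemma z_mul_Pgd (δ : ℕ → ℂ) (L : ℕ) (z : ℂ) : z * Pgd δ L z = pg δ L z := by
  unfold Pgd pg
  rw [Finset.mul_sum]
  apply Finset.sum_congr rfl
  intro k hk
  rw [Finset.mem_Ico] at hk
  have hk0 : (k:ℂ) ≠ 0 := by
    have : k ≠ 0 := by omega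
    exact_mod_cast this
  have e : z ^ k = z * z ^ (k - 1) := by
    rw [← pow_succ']; congr 1; omega
  rw [e]
  field_simp

def Wg (α : ι → ℂ) (β : κ → ℂ) (K : ℝ) (L : ℕ) (p : ℝ × ℝ) : ℝ :=
  Uf α (Z p) + (Pg (dl α β) L (Z p)).re + psi α K p - psi β K p - phi3 β K p

def Wgd (α : ι → ℂ) (β : κ → ℂ) (K : ℝ) (L : ℕ) (p : ℝ × ℝ) : ℝ :=
  (cf α (Z p)).re - (pg (dl α β) L (Z p)).re + chi α K p * (K - (bf α (Z p)).re) -
    chi β K p * (K - (bf β (Z p)).re) - (chi3 β K p * (cf β (Z p)).re + K * kap β K p)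

lemma hasDerivAt_Wg {α : ι → ℂ} {β : κ → ℂ} (ha : ∀ i, ‖α i‖ ≠ 1) (hb : ∀ j, ‖β j‖ ≠ 1) (K : ℝ)
    (L : ℕ) (θ : ℝ) {s : ℝ} (hs : 0 ≤ s) :
    HasDerivAt (fun s => Wg α β K L (s, θ)) (Wgd α β K L (s, θ)) s := by
  unfold Wg Wgd
  have h1 := ray_of_lin (hasFDerivAt_Uf' ha (p := (s, θ)) hs)
  have h2 := ray_of_lin (hasFDerivAt_re (p := (s, θ)) (hasDerivAt_Pg (dl α β) L (Z (s, θ))))
  rw [z_mul_Pgd, Complex.neg_re] at h2
  have h4 := hasDerivAt_psi_ray ha K θ hs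
  have h5 := hasDerivAt_psi_ray hb K θ hs
  have h6 := hasDerivAt_phi3_ray hb K θ hs
  exact (((h1.add h2).add h4).sub h5).sub h6

lemma core_ineq {n K μ x1 x2 x3 c1 c2 c3 a p k R : ℝ} (hn : 0 ≤ n) (hK : 0 < K) (hμ : 0 < μ)
    (h1 : 0 ≤ c1) (h1' : c1 ≤ 1) (h2 : 0 ≤ c2) (h2' : c2 ≤ 1) (h3 : 0 ≤ c3) (h3' : c3 ≤ 1)
    (ha : a ≤ n / 2) (hk : |k| ≤ 1 - c3) (hR : c1 * c2 * c3 * (a + x1 + x2 + x3 + p) ≤ R) :
    a + p - c1 * (K - x1) + c2 * (K + x2) + (c3 * x3 + K * k) ≤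
      ((1 - c1) + (1 - c2) + (1 - c3)) * (n / 2 + μ / 2 + 5 * K / 2) +
        1 / (2 * K) * (c1 * x1 ^ 2 + c2 * x2 ^ 2 + c3 * x3 ^ 2) + 1 / (2 * μ) * p ^ 2 + R := by
  have h12 : 0 ≤ c1 * c2 := mul_nonneg h1 h2
  obtain ⟨X, hX⟩ : ∃ X, X = c1 * c2 * c3 := ⟨_, rfl⟩
  have hX0 : 0 ≤ X := by rw [hX]; exact mul_nonneg h12 h3
  have hX1 : X ≤ c1 := by
    rw [hX, mul_assoc]
    exact mul_le_of_le_one_right h1 (mul_le_one₀ h2' h3 h3')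
  have hX3 : X ≤ c3 := by
    rw [hX]
    exact mul_le_of_le_one_left h3 (mul_le_one₀ h1' h2 h2')
  have hX2 : X ≤ c2 := by
    have e : X = c2 * (c1 * c3) := by rw [hX]; ring
    rw [e]
    exact mul_le_of_le_one_right h2 (mul_le_one₀ h1' h3 h3')
  have hXs : 1 - X ≤ (1 - c1) + (1 - c2) + (1 - c3) := by
    have e1 : 0 ≤ (1 - c1) * (1 - c2) := mul_nonneg (by linarith) (by linarith)
    have e2 : 0 ≤ (1 - c1 * c2) * (1 - c3) := by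
      apply mul_nonneg _ (by linarith)
      have := mul_le_one₀ h1' h2 h2'
      linarith
    rw [hX]
    nlinarith
  rw [← hX] at hR
  have young : ∀ (M : ℝ), 0 < M → ∀ x : ℝ, x ≤ M / 2 + 1 / (2 * M) * x ^ 2 := by
    intro M hM x
    have e : M / 2 + 1 / (2 * M) * x ^ 2 - x = (x - M) ^ 2 / (2 * M) := by field_simp; ring
    have : 0 ≤ (x - M) ^ 2 / (2 * M) := by positivity
    linarith
  have hterm : ∀ c x : ℝ, X ≤ c → 0 ≤ c → c ≤ 1 →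
      (c - X) * x ≤ (1 - X) * (K / 2) + 1 / (2 * K) * (c * x ^ 2) := by
    intro c x e1 e2 e3
    have e4 := mul_le_mul_of_nonneg_left (young K hK x) (by linarith : 0 ≤ c - X)
    have e5 : (c - X) * (K / 2) ≤ (1 - X) * (K / 2) :=
      mul_le_mul_of_nonneg_right (by linarith) (by positivity)
    have e6 : 0 ≤ 1 / (2 * K) * x ^ 2 := by positivity
    have e7 : (c - X) * (1 / (2 * K) * x ^ 2) ≤ c * (1 / (2 * K) * x ^ 2) :=
      mul_le_mul_of_nonneg_right (by linarith) e6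
    rw [mul_add] at e4
    have e8 : 1 / (2 * K) * (c * x ^ 2) = c * (1 / (2 * K) * x ^ 2) := by ring
    rw [e8]
    linarith
  have t1 := hterm c1 x1 hX1 h1 h1'
  have t2 := hterm c2 x2 hX2 h2 h2'
  have t3 := hterm c3 x3 hX3 h3 h3'
  have t4 : (1 - X) * (a + p) ≤ (1 - X) * (n / 2 + μ / 2) + 1 / (2 * μ) * p ^ 2 := by
    have hX1' : 0 ≤ 1 - X := by linarith
    have e1 : a + p ≤ (n / 2 + μ / 2) + 1 / (2 * μ) * p ^ 2 := by
      have := young μ hμ p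
      linarith
    have e2 := mul_le_mul_of_nonneg_left e1 hX1'
    have e3 : 0 ≤ 1 / (2 * μ) * p ^ 2 := by positivity
    have e4 : (1 - X) * (1 / (2 * μ) * p ^ 2) ≤ 1 * (1 / (2 * μ) * p ^ 2) :=
      mul_le_mul_of_nonneg_right (by linarith) e3
    rw [mul_add] at e2
    linarith
  have t5 : (1 - X) * (n / 2 + μ / 2 + 3 * K / 2) ≤
      ((1 - c1) + (1 - c2) + (1 - c3)) * (n / 2 + μ / 2 + 3 * K / 2) :=
    mul_le_mul_of_nonneg_right hXs (by positivity)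
  have t6 : K * k ≤ K * (1 - c3) :=
    mul_le_mul_of_nonneg_left ((le_abs_self k).trans hk) hK.le
  have t7 : 0 ≤ K * (1 - c2) := mul_nonneg hK.le (by linarith)
  have key : a + p - c1 * (K - x1) + c2 * (K + x2) + (c3 * x3 + K * k) =
      X * (a + x1 + x2 + x3 + p) + (1 - X) * (a + p) + (c1 - X) * x1 + (c2 - X) * x2 +
        (c3 - X) * x3 + (K * (1 - c1) - K * (1 - c2) + K * k) := by ring
  rw [key]
  have e9 : 1 / (2 * K) * (c1 * x1 ^ 2 + c2 * x2 ^ 2 + c3 * x3 ^ 2) =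
      1 / (2 * K) * (c1 * x1 ^ 2) + 1 / (2 * K) * (c2 * x2 ^ 2) + 1 / (2 * K) * (c3 * x3 ^ 2) := by
    ring
  rw [e9]
  have e10 : ((1 - c1) + (1 - c2) + (1 - c3)) * (n / 2 + μ / 2 + 5 * K / 2) =
      ((1 - c1) + (1 - c2) + (1 - c3)) * (n / 2 + μ / 2 + 3 * K / 2) +
        (K * (1 - c1) + K * (1 - c2) + K * (1 - c3)) := by ring
  rw [e10]
  linarith

/-- the sum of the three energies densities -/
def EE (α : ι → ℂ) (β : κ → ℂ) (K : ℝ) (p : ℝ × ℝ) : ℝ :=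
  chi α K p * ‖bf α (Z p)‖ ^ 2 + chi β K p * ‖bf β (Z p)‖ ^ 2 + chi3 β K p * ‖cf β (Z p)‖ ^ 2

/-- the sum of the three bad densities -/
def BB (α : ι → ℂ) (β : κ → ℂ) (K : ℝ) (p : ℝ × ℝ) : ℝ :=
  (1 - chi α K p) + (1 - chi β K p) + (1 - chi3 β K p)

/-- the bounding function -/
def Xg [DecidableEq ι] [DecidableEq κ] (α : ι → ℂ) (β : κ → ℂ) (L : ℕ) (μ l0 : ℝ) (p : ℝ × ℝ) : ℝ :=
  ((Fintype.card ι : ℝ) / 2 + μ / 2 + 5 * (L / 8 : ℝ) / 2) * BB α β (L / 8) p +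
  (1 / (2 * (L / 8 : ℝ)) + 5 * (l0 ^ 2)⁻¹) * EE α β (L / 8) p +
  (1 / (2 * μ) + 5 * (l0 ^ 2)⁻¹) * ‖pg (dl α β) L (Z p)‖ ^ 2 +
  l0 * (Real.exp (-(L / 4 * p.1)) * YY α β L (Z p)) +
  5 * (l0 ^ 2)⁻¹ * ((Fintype.card ι : ℝ) ^ 2 / 4) * Real.exp (-(L / 4 * p.1))

lemma EE_nonneg (α : ι → ℂ) (β : κ → ℂ) {K : ℝ} (hK : 0 ≤ K) {p : ℝ × ℝ} (hp : 0 ≤ p.1) :
    0 ≤ EE α β K p := by
  unfold EE
  have h1 := chi_nonneg α K p
  have h2 := chi_nonneg β K p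
  have h3 := chi3_nonneg β hK hp
  positivity

lemma BB_nonneg (α : ι → ℂ) (β : κ → ℂ) (K : ℝ) (p : ℝ × ℝ) : 0 ≤ BB α β K p := by
  unfold BB
  have h1 := chi_le_one α K p
  have h2 := chi_le_one β K p
  have h3 := chi3_le_one β K p
  linarith

lemma Xg_nonneg [DecidableEq ι] [DecidableEq κ] (α : ι → ℂ) (β : κ → ℂ) (L : ℕ) {μ l0 : ℝ}
    (hμ : 0 < μ) (hl0 : 0 < l0) {p : ℝ × ℝ} (hp : 0 ≤ p.1) : 0 ≤ Xg α β L μ l0 p := by
  unfold Xg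
  have h1 := EE_nonneg α β (K := L / 8) (by positivity) hp
  have h2 := BB_nonneg α β (L / 8) p
  have h3 := YY_nonneg α β L (Z p)
  positivity

theorem neg_Wgd_le [DecidableEq ι] [DecidableEq κ] {α : ι → ℂ} {β : κ → ℂ}
    (ha : ∀ i, ‖α i‖ ≠ 1) {L : ℕ} (hL : 1 ≤ L)
    {μ l0 : ℝ} (hμ : 0 < μ) (hl0 : 0 < l0) {p : ℝ × ℝ} (hp : 0 ≤ p.1) :
    -Wgd α β (L / 8) L p ≤ Xg α β L μ l0 p := by
  have hL0 : (0:ℝ) < L := by exact_mod_cast hL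
  obtain ⟨K, hK⟩ : ∃ K : ℝ, K = (L:ℝ) / 8 := ⟨_, rfl⟩
  have hK0 : 0 < K := by rw [hK]; positivity
  obtain ⟨z, hz⟩ : ∃ z, z = Z p := ⟨_, rfl⟩
  have hz1 : ‖z‖ ≤ 1 := by rw [hz]; exact Z_norm_le hp
  obtain ⟨n, hn⟩ : ∃ n : ℝ, n = (Fintype.card ι : ℝ) := ⟨_, rfl⟩
  have hn0 : 0 ≤ n := by rw [hn]; positivity
  obtain ⟨c1, hc1⟩ : ∃ c : ℝ, c = chi α K p := ⟨_, rfl⟩
  obtain ⟨c2, hc2⟩ : ∃ c : ℝ, c = chi β K p := ⟨_, rfl⟩
  obtain ⟨c3, hc3⟩ : ∃ c : ℝ, c = chi3 β K p := ⟨_, rfl⟩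
  have a1 : 0 ≤ c1 := by rw [hc1]; exact chi_nonneg _ _ _
  have a1' : c1 ≤ 1 := by rw [hc1]; exact chi_le_one _ _ _
  have a2 : 0 ≤ c2 := by rw [hc2]; exact chi_nonneg _ _ _
  have a2' : c2 ≤ 1 := by rw [hc2]; exact chi_le_one _ _ _
  have a3 : 0 ≤ c3 := by rw [hc3]; exact chi3_nonneg _ hK0.le hp
  have a3' : c3 ≤ 1 := by rw [hc3]; exact chi3_le_one _ _ _
  have hkap : |kap β K p| ≤ 1 - c3 := by rw [hc3]; exact abs_kap_le _ _ _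
  obtain ⟨P, hP⟩ : ∃ P : ℝ, P = ‖pg (dl α β) L z‖ := ⟨_, rfl⟩
  have hP0 : 0 ≤ P := by rw [hP]; exact norm_nonneg _
  have hPre : |(pg (dl α β) L z).re| ≤ P := by rw [hP]; exact Complex.abs_re_le_norm _
  have hAn : -(cf α z).re ≤ n / 2 := by
    have := sum_q_ge ha hz1
    unfold cf
    rw [hn]; linarith
  obtain ⟨R, hR⟩ : ∃ R : ℝ, R = l0 * (Real.exp (-(L / 4 * p.1)) * YY α β L z) +
      5 * (l0 ^ 2)⁻¹ * (n ^ 2 / 4) * Real.exp (-(L / 4 * p.1)) + 5 * (l0 ^ 2)⁻¹ * P ^ 2 +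
      5 * (l0 ^ 2)⁻¹ * (c1 * ‖bf α z‖ ^ 2 + c2 * ‖bf β z‖ ^ 2 + c3 * ‖cf β z‖ ^ 2) := ⟨_, rfl⟩
  have hY0 := YY_nonneg α β L z
  have hR0 : 0 ≤ R := by rw [hR]; positivity
  have hgood : c1 * c2 * c3 * (-(cf α z).re + (bf α z).re + -(bf β z).re + (cf β z).re +
      (pg (dl α β) L z).re) ≤ R := by
    obtain ⟨X, hX⟩ : ∃ X, X = c1 * c2 * c3 := ⟨_, rfl⟩
    have hX0 : 0 ≤ X := by rw [hX]; positivity
    have hX1 : X ≤ c1 := by
      rw [hX, mul_assoc]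
      exact mul_le_of_le_one_right a1 (mul_le_one₀ a2' a3 a3')
    have hX3 : X ≤ c3 := by
      rw [hX]
      exact mul_le_of_le_one_left a3 (mul_le_one₀ a1' a2 a2')
    have hX2 : X ≤ c2 := by
      have e : X = c2 * (c1 * c3) := by rw [hX]; ring
      rw [e]
      exact mul_le_of_le_one_right a2 (mul_le_one₀ a1' a3 a3')
    rw [← hX]
    rcases hX0.eq_or_lt with h0 | h0
    · rw [← h0, zero_mul]; exact hR0
    have hc1p : 0 < c1 := lt_of_lt_of_le h0 hX1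
    have hc2p : 0 < c2 := lt_of_lt_of_le h0 hX2
    have hNZ : NZ α z := by
      by_contra hcon
      rw [hz] at hcon
      rw [hc1, chi_not hcon] at hc1p
      exact lt_irrefl _ hc1p
    have hNZ2 : NZ β z := by
      by_contra hcon
      rw [hz] at hcon
      rw [hc2, chi_not hcon] at hc2p
      exact lt_irrefl _ hc2p
    have hg : gf α z ≤ K * p.1 := by
      by_contra hcon
      push Not at hcon
      rw [hz] at hcon hNZ
      rw [hc1, chi_of hNZ, hd_of_nonpos (by linarith)] at hc1p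
      exact lt_irrefl _ hc1p
    have hg2 : gf β z ≤ K * p.1 := by
      by_contra hcon
      push Not at hcon
      rw [hz] at hcon hNZ2
      rw [hc2, chi_of hNZ2, hd_of_nonpos (by linarith)] at hc2p
      exact lt_irrefl _ hc2p
    obtain ⟨m, hm⟩ : ∃ m : ℝ, m = -(cf α z).re + (bf α z).re + -(bf β z).re + (cf β z).re +
      (pg (dl α β) L z).re := ⟨_, rfl⟩
    rw [← hm]
    have hm1 : m ≤ ‖Qd α β L z‖ := by
      have e : m = (Qd α β L z).re := by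
        rw [Qd_split, hm]
        have e1 : bf α z = cf α z - ∑ i, q (α i) z := by
          unfold bf cf; rw [Finset.sum_sub_distrib]
        have e2 : bf β z = cf β z - ∑ i, q (β i) z := by
          unfold bf cf; rw [Finset.sum_sub_distrib]
        rw [e1, e2]
        simp only [Complex.sub_re, Complex.add_re]
        ring
      rw [e]; exact Complex.re_le_norm _
    have hm2 : m ≤ n / 2 + ‖bf α z‖ + ‖bf β z‖ + ‖cf β z‖ + P := by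
      have h1 := (le_abs_self _).trans hPre
      have h2 : (bf α z).re ≤ ‖bf α z‖ := Complex.re_le_norm _
      have h3 : -(bf β z).re ≤ ‖bf β z‖ := (neg_le_abs _).trans (Complex.abs_re_le_norm _)
      have h4 : (cf β z).re ≤ ‖cf β z‖ := Complex.re_le_norm _
      rw [hm]; linarith
    obtain ⟨l, hl⟩ : ∃ l : ℝ, l = l0 * Real.exp (L / 8 * p.1) := ⟨_, rfl⟩
    have hlpos : 0 < l := by rw [hl]; positivity
    have h3 := min_le hm1 hm2 hlpos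
    have h4 : √‖Qd α β L z‖ ≤ Real.exp ((2 * K - L) * p.1 / 2) * YY α β L z := by
      rw [hz] at hNZ hNZ2 hg hg2 ⊢
      rw [sqrt_Qd hNZ hNZ2 hL]
      apply mul_le_mul_of_nonneg_right _ (YY_nonneg _ _ _ _)
      apply Real.exp_le_exp.2
      have : gf α (Z p) + gf β (Z p) - L * p.1 ≤ (2 * K - L) * p.1 := by linarith
      linarith
    have h5 : l * √‖Qd α β L z‖ ≤ l0 * (Real.exp (-(L / 4 * p.1)) * YY α β L z) := by
      calc l * √‖Qd α β L z‖ ≤ l * (Real.exp ((2 * K - L) * p.1 / 2) * YY α β L z) :=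
            mul_le_mul_of_nonneg_left h4 hlpos.le
        _ = l0 * ((Real.exp (L / 8 * p.1) * Real.exp ((2 * K - L) * p.1 / 2)) * YY α β L z) := by
            rw [hl]; ring
        _ = _ := by
            rw [← Real.exp_add]
            congr 4
            rw [hK]; ring
    have h6 : (l ^ 2)⁻¹ = (l0 ^ 2)⁻¹ * Real.exp (-(L / 4 * p.1)) := by
      rw [hl, mul_pow, mul_inv, ← Real.exp_nat_mul, ← Real.exp_neg]
      congr 2
      push_cast; ring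
    have h7 : (n / 2 + ‖bf α z‖ + ‖bf β z‖ + ‖cf β z‖ + P) ^ 2 ≤
        5 * (n ^ 2 / 4 + (‖bf α z‖ ^ 2 + ‖bf β z‖ ^ 2 + ‖cf β z‖ ^ 2) + P ^ 2) := by
      generalize ‖bf α z‖ = y1
      generalize ‖bf β z‖ = y2
      generalize ‖cf β z‖ = y3
      nlinarith [sq_nonneg (n / 2 - y1), sq_nonneg (n / 2 - y2), sq_nonneg (n / 2 - y3),
        sq_nonneg (n / 2 - P), sq_nonneg (y1 - y2), sq_nonneg (y1 - y3), sq_nonneg (y1 - P),
        sq_nonneg (y2 - y3), sq_nonneg (y2 - P), sq_nonneg (y3 - P)]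
    have e2 : Real.exp (-(L / 4 * p.1)) ≤ 1 := by
      apply Real.exp_le_one_iff.2
      have : 0 ≤ L / 4 * p.1 := by positivity
      linarith
    have e20 : 0 < Real.exp (-(L / 4 * p.1)) := Real.exp_pos _
    have hXle1 : X ≤ 1 := hX1.trans a1'
    -- multiply by X
    have h8 : X * m ≤ X * (l * √‖Qd α β L z‖) + X * ((l ^ 2)⁻¹ *
        (n / 2 + ‖bf α z‖ + ‖bf β z‖ + ‖cf β z‖ + P) ^ 2) := by
      rw [← mul_add]
      exact mul_le_mul_of_nonneg_left h3 hX0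
    have h9 : X * (l * √‖Qd α β L z‖) ≤ l0 * (Real.exp (-(L / 4 * p.1)) * YY α β L z) := by
      calc X * (l * √‖Qd α β L z‖) ≤ 1 * (l * √‖Qd α β L z‖) :=
            mul_le_mul_of_nonneg_right hXle1 (by positivity)
        _ ≤ _ := by rw [one_mul]; exact h5
    have h10 : X * ((l ^ 2)⁻¹ * (n / 2 + ‖bf α z‖ + ‖bf β z‖ + ‖cf β z‖ + P) ^ 2) ≤
        5 * (l0 ^ 2)⁻¹ * (n ^ 2 / 4) * Real.exp (-(L / 4 * p.1)) + 5 * (l0 ^ 2)⁻¹ * P ^ 2 +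
      5 * (l0 ^ 2)⁻¹ * (c1 * ‖bf α z‖ ^ 2 + c2 * ‖bf β z‖ ^ 2 + c3 * ‖cf β z‖ ^ 2) := by
      have hli : 0 ≤ (l ^ 2)⁻¹ := by positivity
      have hl0i : 0 ≤ (l0 ^ 2)⁻¹ := by positivity
      have g1 := mul_le_mul_of_nonneg_left (mul_le_mul_of_nonneg_left h7 hli) hX0
      refine g1.trans ?_
      rw [h6]
      have g2 : X * ((l0 ^ 2)⁻¹ * Real.exp (-(L / 4 * p.1)) *
          (5 * (n ^ 2 / 4 + (‖bf α z‖ ^ 2 + ‖bf β z‖ ^ 2 + ‖cf β z‖ ^ 2) + P ^ 2))) =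
          5 * (l0 ^ 2)⁻¹ * (n ^ 2 / 4) * Real.exp (-(L / 4 * p.1)) * X +
          5 * (l0 ^ 2)⁻¹ * P ^ 2 * (X * Real.exp (-(L / 4 * p.1))) +
          5 * (l0 ^ 2)⁻¹ * (Real.exp (-(L / 4 * p.1)) * (X * ‖bf α z‖ ^ 2 + X * ‖bf β z‖ ^ 2 +
            X * ‖cf β z‖ ^ 2)) := by ring
      rw [g2]
      have g3 : 5 * (l0 ^ 2)⁻¹ * (n ^ 2 / 4) * Real.exp (-(L / 4 * p.1)) * X ≤
          5 * (l0 ^ 2)⁻¹ * (n ^ 2 / 4) * Real.exp (-(L / 4 * p.1)) :=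
        mul_le_of_le_one_right (by positivity) hXle1
      have g4 : 5 * (l0 ^ 2)⁻¹ * P ^ 2 * (X * Real.exp (-(L / 4 * p.1))) ≤
          5 * (l0 ^ 2)⁻¹ * P ^ 2 :=
        mul_le_of_le_one_right (by positivity) (mul_le_one₀ hXle1 e20.le e2)
      have g5 : X * ‖bf α z‖ ^ 2 + X * ‖bf β z‖ ^ 2 + X * ‖cf β z‖ ^ 2 ≤
          c1 * ‖bf α z‖ ^ 2 + c2 * ‖bf β z‖ ^ 2 + c3 * ‖cf β z‖ ^ 2 := by
        have := mul_le_mul_of_nonneg_right hX1 (sq_nonneg ‖bf α z‖)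
        have := mul_le_mul_of_nonneg_right hX2 (sq_nonneg ‖bf β z‖)
        have := mul_le_mul_of_nonneg_right hX3 (sq_nonneg ‖cf β z‖)
        linarith
      have g6 : Real.exp (-(L / 4 * p.1)) * (X * ‖bf α z‖ ^ 2 + X * ‖bf β z‖ ^ 2 +
            X * ‖cf β z‖ ^ 2) ≤ c1 * ‖bf α z‖ ^ 2 + c2 * ‖bf β z‖ ^ 2 + c3 * ‖cf β z‖ ^ 2 := by
        refine le_trans ?_ g5
        exact mul_le_of_le_one_left (by positivity) e2
      have g7 := mul_le_mul_of_nonneg_left g6 (by positivity : 0 ≤ 5 * (l0 ^ 2)⁻¹)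
      linarith
    rw [hR]
    linarith
  have hcore := core_ineq (n := n) (K := K) (μ := μ) (x1 := (bf α z).re) (x2 := -(bf β z).re)
    (x3 := (cf β z).re) (c1 := c1) (c2 := c2) (c3 := c3) (a := -(cf α z).re)
    (p := (pg (dl α β) L z).re) (k := kap β K p) (R := R) hn0 hK0 hμ a1 a1' a2 a2' a3 a3'
    hAn hkap hgood
  have hsq : ∀ w : ℂ, w.re ^ 2 ≤ ‖w‖ ^ 2 := by
    intro w
    rw [← sq_abs]
    exact pow_le_pow_left₀ (abs_nonneg _) (Complex.abs_re_le_norm w) 2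
  have hW : -Wgd α β K L p = -(cf α z).re + (pg (dl α β) L z).re - c1 * (K - (bf α z).re) +
      c2 * (K + -(bf β z).re) + (c3 * (cf β z).re + K * kap β K p) := by
    unfold Wgd
    rw [← hz, ← hc1, ← hc2, ← hc3]
    ring
  rw [← hK, hW]
  refine hcore.trans ?_
  unfold Xg BB EE
  rw [← hK, ← hz, ← hn, ← hc1, ← hc2, ← hc3, ← hP, hR]
  have f1 : c1 * (bf α z).re ^ 2 + c2 * (-(bf β z).re) ^ 2 + c3 * (cf β z).re ^ 2 ≤
      c1 * ‖bf α z‖ ^ 2 + c2 * ‖bf β z‖ ^ 2 + c3 * ‖cf β z‖ ^ 2 := by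
    rw [neg_sq]
    have := mul_le_mul_of_nonneg_left (hsq (bf α z)) a1
    have := mul_le_mul_of_nonneg_left (hsq (bf β z)) a2
    have := mul_le_mul_of_nonneg_left (hsq (cf β z)) a3
    linarith
  have f2 := mul_le_mul_of_nonneg_left f1 (by positivity : 0 ≤ 1 / (2 * K))
  have f3 : (pg (dl α β) L z).re ^ 2 ≤ P ^ 2 := by rw [hP]; exact hsq _
  have f4 := mul_le_mul_of_nonneg_left f3 (by positivity : 0 ≤ 1 / (2 * μ))
  have f5 : (1 / (2 * K) + 5 * (l0 ^ 2)⁻¹) *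
      (c1 * ‖bf α z‖ ^ 2 + c2 * ‖bf β z‖ ^ 2 + c3 * ‖cf β z‖ ^ 2) =
      1 / (2 * K) * (c1 * ‖bf α z‖ ^ 2 + c2 * ‖bf β z‖ ^ 2 + c3 * ‖cf β z‖ ^ 2) +
      5 * (l0 ^ 2)⁻¹ * (c1 * ‖bf α z‖ ^ 2 + c2 * ‖bf β z‖ ^ 2 + c3 * ‖cf β z‖ ^ 2) := by ring
  have f6 : (1 / (2 * μ) + 5 * (l0 ^ 2)⁻¹) * P ^ 2 =
      1 / (2 * μ) * P ^ 2 + 5 * (l0 ^ 2)⁻¹ * P ^ 2 := by ring
  rw [f5, f6]
  linarith

end

end Pool.Agent.K3h99.Leh
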