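import Pool.Agent.K3h99.Leh.Asm
import Pool.Agent.K3h99.Leh2.Ray2

/-!
Assembly of the analytic bound, two polynomials.
-/

set_option autoImplicit false

namespace Pool.Agent.K3h99.Leh

open Complex MeasureTheory Metric Set Filter Topology ComplexConjugate InnerProductSpace Real

noncomputable section

variable {ι κ : Type*} [Fintype ι] [Fintype κ]

/-- what holds at the far end -/
structure Far (α : ι → ℂ) (β : κ → ℂ) (K : ℝ) (L : ℕ) (S : ℝ) (θ : ℝ) : Prop where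
  a : NZ α (Z (S, θ)) ∧
      gf α (Z (S, θ)) ≤ ep α + 1 / 4 ∧ |Vf α (Z (S, θ))| ≤ 1 / 4 ∧
      1 ≤ K * S - gf α (Z (S, θ)) ∧ |psi α K (S, θ) * (bf α (Z (S, θ))).re| ≤ K / 4
  b : NZ β (Z (S, θ)) ∧
      gf β (Z (S, θ)) ≤ ep β + 1 / 4 ∧ |Vf β (Z (S, θ))| ≤ 1 / 4 ∧
      1 ≤ K * S - gf β (Z (S, θ)) ∧ |psi β K (S, θ) * (bf β (Z (S, θ))).re| ≤ K / 4
  c : |Uf β (Z (S, θ)) - ep β| ≤ 1 / 4 ∧
      1 ≤ K * S - Uf β (Z (S, θ)) ∧ 1 ≤ K * S + Uf β (Z (S, θ)) ∧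
      |phi3 β K (S, θ) * (cf β (Z (S, θ))).re| ≤ K / 4
  d : |(Pg (dl α β) L (Z (S, θ))).re| ≤ 1 / 4

theorem far2 {α : ι → ℂ} {β : κ → ℂ} (ha : ∀ i, ‖α i‖ ≠ 1) (hb : ∀ j, ‖β j‖ ≠ 1) {K : ℝ}
    (hK : 0 < K) (L : ℕ) : ∃ S : ℝ, 0 ≤ S ∧ ∀ θ : ℝ, Far α β K L S θ := by
  have h1 := far ha hK
  have h2 := far hb hK
  have h3 := far3 hb hK
  have hP0 : Pg (dl α β) L 0 = 0 := by
    unfold Pg
    apply Finset.sum_eq_zero
    intro k hk
    rw [Finset.mem_Ico] at hk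
    rw [zero_pow (by omega), mul_zero]
  have hc : ContinuousAt (fun z => |(Pg (dl α β) L z).re|) 0 :=
    (Complex.continuous_re.comp (continuous_Pg (dl α β) L)).abs.continuousAt
  have h4 : ∀ᶠ z in 𝓝 (0:ℂ), |(Pg (dl α β) L z).re| < 1 / 4 :=
    hc.eventually (gt_mem_nhds (by simp only [hP0]; norm_num))
  obtain ⟨r, hr, h5⟩ := Metric.eventually_nhds_iff.1 h4
  have t1 : ∀ᶠ S in (atTop : Filter ℝ), Real.exp (-S) < r :=
    Real.tendsto_exp_neg_atTop_nhds_zero.eventually (gt_mem_nhds hr)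
  obtain ⟨S, ⟨⟨⟨hS0, hS⟩, hS2⟩, hS3⟩, hS4⟩ := (((h1.and h2).and h3).and t1).exists
  refine ⟨S, hS0, fun θ => ⟨hS θ, hS2.2 θ, hS3 θ, ?_⟩⟩
  apply (h5 (y := Z (S, θ)) _).le
  rw [dist_zero_right, norm_Z]
  exact hS4

lemma C0_BB {α : ι → ℂ} {β : κ → ℂ} (ha : ∀ i, ‖α i‖ ≠ 1) (hb : ∀ j, ‖β j‖ ≠ 1) (K : ℝ) :
    C0 (BB α β K) :=
  (((C0.const 1).sub (C0_chi ha K)).add ((C0.const 1).sub (C0_chi hb K))).add
    ((C0.const 1).sub (C0_chi3 hb K))

lemma C0_EE {α : ι → ℂ} {β : κ → ℂ} (ha : ∀ i, ‖α i‖ ≠ 1) (hb : ∀ j, ‖β j‖ ≠ 1) (K : ℝ) :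
    C0 (EE α β K) :=
  ((C0_chi_sq ha K).add (C0_chi_sq hb K)).add ((C0_chi3 hb K).mul (C0_csq hb))

lemma C0_chi_sub {α : ι → ℂ} (ha : ∀ i, ‖α i‖ ≠ 1) (K : ℝ) :
    C0 (fun p => chi α K p * (K - (bf α (Z p)).re)) := by
  intro p hp
  apply continuousAt_chi_mul ha K hp
  intro hn
  exact continuousAt_const.sub (Complex.continuous_re.continuousAt.comp (continuousAt_bf ha hp hn))

lemma C0_Wgd {α : ι → ℂ} {β : κ → ℂ} (ha : ∀ i, ‖α i‖ ≠ 1) (hb : ∀ j, ‖β j‖ ≠ 1) (K : ℝ) (L : ℕ) :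
    C0 (Wgd α β K L) := by
  have h2 : C0 (fun p => (pg (dl α β) L (Z p)).re) :=
    C0.of_continuous (Complex.continuous_re.comp ((continuous_pg (dl α β) L).comp continuous_Z))
  exact ((((C0_cre ha).sub h2).add (C0_chi_sub ha K)).sub (C0_chi_sub hb K)).sub
    (((C0_chi3 hb K).mul (C0_cre hb)).add ((C0_kap hb K).const_mul K))

lemma C0_YY [DecidableEq ι] [DecidableEq κ] {α : ι → ℂ} {β : κ → ℂ} (ha : ∀ i, ‖α i‖ ≠ 1)
    (hb : ∀ j, ‖β j‖ ≠ 1) (L : ℕ) : C0 (fun p => YY α β L (Z p)) :=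
  C0_Yf (ne_elim ha hb) (Nd α β L)

lemma C0_Xg [DecidableEq ι] [DecidableEq κ] {α : ι → ℂ} {β : κ → ℂ} (ha : ∀ i, ‖α i‖ ≠ 1)
    (hb : ∀ j, ‖β j‖ ≠ 1) (L : ℕ) (μ l0 : ℝ) : C0 (Xg α β L μ l0) := by
  unfold Xg
  have h1 := (C0_BB ha hb (L / 8)).const_mul
    ((Fintype.card ι : ℝ) / 2 + μ / 2 + 5 * (L / 8 : ℝ) / 2)
  have h2 := (C0_EE ha hb (L / 8)).const_mul (1 / (2 * (L / 8 : ℝ)) + 5 * (l0 ^ 2)⁻¹)
  have h3 := (C0_pg (dl α β) L).const_mul (1 / (2 * μ) + 5 * (l0 ^ 2)⁻¹)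
  have h4 := ((C0_exp (L / 4)).mul (C0_YY ha hb L)).const_mul l0
  have h5 := (C0_exp (L / 4)).const_mul (5 * (l0 ^ 2)⁻¹ * ((Fintype.card ι : ℝ) ^ 2 / 4))
  exact (((h1.add h2).add h3).add h4).add h5

/-- pointwise bound for `log⁺ |F|` on the circle -/
theorem ray_bound2 [DecidableEq ι] [DecidableEq κ] {α : ι → ℂ} {β : κ → ℂ}
    (ha : ∀ i, ‖α i‖ ≠ 1) (hb : ∀ j, ‖β j‖ ≠ 1) {L : ℕ} (hL : 1 ≤ L)
    {μ l0 : ℝ} (hμ : 0 < μ) (hl0 : 0 < l0) {S : ℝ} (hS : 0 ≤ S) (θ : ℝ)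
    (hfar : Far α β (L / 8) L S θ) :
    Real.posLog ‖∏ i, (1 - α i * Z (0, θ))‖ ≤
      5 / 4 + ‖Pg (dl α β) L (Z (0, θ))‖ + ∫ s in (0:ℝ)..S, Xg α β L μ l0 (s, θ) := by
  obtain ⟨⟨e1, _, e3, e4, _⟩, ⟨f1, _, f3, f4, _⟩, ⟨c1, c2, c3, _⟩, e6⟩ := hfar
  have hz : ‖Z (0, θ)‖ = 1 := by rw [norm_Z]; simp
  have hn := NZ_circle ha hz
  have hX0 : 0 ≤ ∫ s in (0:ℝ)..S, Xg α β L μ l0 (s, θ) :=
    intervalIntegral.integral_nonneg hS fun s hs => Xg_nonneg α β L hμ hl0 (p := (s, θ)) hs.1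
  have hFTC := intervalIntegral.integral_eq_sub_of_hasDerivAt (a := 0) (b := S)
    (f := fun s => Wg α β (L / 8) L (s, θ)) (f' := fun s => Wgd α β (L / 8) L (s, θ))
    (fun s hs => by
      rw [uIcc_of_le hS] at hs
      exact hasDerivAt_Wg ha hb _ L θ hs.1)
    ((C0_Wgd ha hb _ L).int_s le_rfl hS θ)
  have hle : ∫ s in (0:ℝ)..S, -Wgd α β (L / 8) L (s, θ) ≤
      ∫ s in (0:ℝ)..S, Xg α β L μ l0 (s, θ) := by
    apply intervalIntegral.integral_mono_on hS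
    · exact ((C0_Wgd ha hb _ L).int_s le_rfl hS θ).neg
    · exact (C0_Xg ha hb L μ l0).int_s le_rfl hS θ
    · intro s hs
      exact neg_Wgd_le ha hL hμ hl0 (p := (s, θ)) hs.1
  rw [intervalIntegral.integral_neg, hFTC] at hle
  have hW0 : Wg α β (L / 8) L (0, θ) = Uf α (Z (0, θ)) + (Pg (dl α β) L (Z (0, θ))).re := by
    unfold Wg
    rw [psi_zero ha, psi_zero hb, phi3_zero]
    simp
  have hWS : Wg α β (L / 8) L (S, θ) ≤ 5 / 4 := by
    have c4 : phi3 β (L / 8) (S, θ) = Uf β (Z (S, θ)) - 1 / 2 := by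
      unfold phi3
      rw [hc_of_one_le c3, hc_of_nonpos (by linarith)]
      ring
    unfold Wg
    rw [psi_of e1, hc_of_one_le e4, psi_of f1, hc_of_one_le f4, c4]
    have h1 := gf_eq α (Z (S, θ))
    have h1' := gf_eq β (Z (S, θ))
    have h2 := (le_abs_self _).trans e3
    have h3 := (le_abs_self _).trans e6
    have h4 := (neg_le_abs _).trans f3
    linarith
  have hU : Uf α (Z (0, θ)) = Vf α (Z (0, θ)) := by
    have h1 := gf_eq α (Z (0, θ))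
    rw [gf_circle ha hz] at h1
    linarith
  have hP : -(Pg (dl α β) L (Z (0, θ))).re ≤ ‖Pg (dl α β) L (Z (0, θ))‖ :=
    (neg_le_abs _).trans (Complex.abs_re_le_norm _)
  have hF : Real.posLog ‖∏ i, (1 - α i * Z (0, θ))‖ = max 0 (Vf α (Z (0, θ))) := by
    rw [norm_prod_eq hn, Real.posLog_apply, Real.log_exp]
  rw [hF]
  apply max_le
  · have := norm_nonneg (Pg (dl α β) L (Z (0, θ))); linarith
  · rw [hW0] at hle
    linarith

lemma JJ_YY [DecidableEq ι] [DecidableEq κ] {α : ι → ℂ} {β : κ → ℂ} (ha : ∀ i, ‖α i‖ ≠ 1)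
    (hb : ∀ j, ‖β j‖ ≠ 1) {L : ℕ} (hL : 1 ≤ L) {S : ℝ} (hS : 0 ≤ S) {a : ℝ} (ha0 : 0 < a) :
    JJ S (fun p => Real.exp (-(a * p.1)) * YY α β L (Z p)) ≤
      2 * π * ((4 * √(Fintype.card ι) + 4 * √(Fintype.card κ) + √(L * (1 + Bg (dl α β) L))) *
        (1 / a)) := by
  have hpi : (0:ℝ) ≤ 2 * π := by positivity
  have hC := (C0_exp a).mul (C0_YY ha hb L)
  have hsw := hC.swap hS (2 * π)
  unfold JJ
  simp only [] at hsw ⊢
  rw [← hsw]
  set M := 2 * π * (4 * √(Fintype.card ι) + 4 * √(Fintype.card κ) +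
    √(L * (1 + Bg (dl α β) L))) with hM
  calc ∫ s in (0:ℝ)..S, ∫ θ in (0:ℝ)..(2 * π), Real.exp (-(a * s)) * YY α β L (Z (s, θ))
      ≤ ∫ s in (0:ℝ)..S, M * Real.exp (-(a * s)) := by
        apply intervalIntegral.integral_mono_on hS
        · exact hC.int_s_int hS hpi
        · apply Continuous.intervalIntegrable; fun_prop
        · intro s hs
          rw [intervalIntegral.integral_const_mul, mul_comm]
          apply mul_le_mul_of_nonneg_right _ (Real.exp_pos _).le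
          exact (means_P (ne_elim ha hb) (Nd α β L) hs.1).trans (circle_YY ha hb hL)
    _ = M * ∫ s in (0:ℝ)..S, Real.exp (-(a * s)) := by rw [intervalIntegral.integral_const_mul]
    _ ≤ M * (1 / a) := mul_le_mul_of_nonneg_left (int_exp_le ha0) (by positivity)
    _ = _ := by rw [hM]; ring

lemma JJ_pg (δ : ℕ → ℂ) (L : ℕ) {S : ℝ} (hS : 0 ≤ S) :
    JJ S (fun p => ‖pg δ L (Z p)‖ ^ 2) ≤ 2 * π * (L / 2 * Bg δ L ^ 2) := by
  have hsw := (C0_pg δ L).swap hS (2 * π)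
  unfold JJ
  rw [← hsw, Bg_sq]
  exact pars_pg δ L hS

/-- mean of `log |G|` over the circle -/
lemma int_Vf {β : κ → ℂ} (hb : ∀ j, ‖β j‖ ≠ 1) :
    ∫ θ in (0:ℝ)..(2 * π), Vf β (Z (0, θ)) = 2 * π * ep β := by
  have h1 : ∀ j, ∫ θ in (0:ℝ)..(2 * π), Real.log ‖1 - β j * Z (0, θ)‖ =
      2 * π * Real.posLog ‖β j‖ := by
    intro j
    have h2 : Real.circleAverage (fun z => Real.log ‖1 - β j * z‖) 0 1 = Real.posLog ‖β j‖ := by
      rw [← circleAverage_log_norm_sub_const_eq_posLog,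
        ← Real.circleAverage_zero_one_congr_inv (f := fun z => Real.log ‖z - β j‖)]
      apply Real.circleAverage_congr_sphere
      intro z hz
      have hz1 : ‖z‖ = 1 := by simpa using hz
      have hz0 : z ≠ 0 := by
        rintro rfl; simp at hz1
      simp only []
      congr 1
      have h3 : 1 - β j * z = z * (z⁻¹ - β j) := by field_simp
      rw [h3, norm_mul, hz1, one_mul]
    unfold Real.circleAverage at h2
    rw [smul_eq_mul, inv_mul_eq_iff_eq_mul₀ (by positivity)] at h2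
    simpa only [Z_zero] using h2
  unfold Vf
  rw [intervalIntegral.integral_finsetSum]
  · simp only [h1]
    rw [← Finset.mul_sum]; rfl
  · intro j _
    apply Continuous.intervalIntegrable
    have hZc : Continuous (fun θ : ℝ => Z (0, θ)) := continuous_Z.comp (by fun_prop)
    apply Continuous.log
    · fun_prop
    · intro θ
      have hz : ‖Z (0, θ)‖ = 1 := by rw [norm_Z]; simp
      exact norm_ne_zero_iff.2 (NZ_circle hb hz j)

lemma int_abs_Uf {β : κ → ℂ} (hb : ∀ j, ‖β j‖ ≠ 1) :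
    ∫ θ in (0:ℝ)..(2 * π), |Uf β (Z (0, θ))| =
      2 * (∫ θ in (0:ℝ)..(2 * π), Real.posLog ‖∏ j, (1 - β j * circleMap 0 1 θ)‖) -
        2 * π * ep β := by
  have hZ0 : ∀ θ, ‖Z (0, θ)‖ = 1 := fun θ => by rw [norm_Z]; simp
  have hZc : Continuous (fun θ : ℝ => Z (0, θ)) := continuous_Z.comp (by fun_prop)
  have hVc : Continuous (fun θ : ℝ => Vf β (Z (0, θ))) := by
    unfold Vf
    apply continuous_finsetSum
    intro j _
    apply Continuous.log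
    · fun_prop
    · intro θ
      exact norm_ne_zero_iff.2 (NZ_circle hb (hZ0 θ) j)
  have hPc : Continuous (fun θ : ℝ => Real.posLog ‖∏ j, (1 - β j * circleMap 0 1 θ)‖) := by
    have h1 : Continuous (fun θ : ℝ => ∏ i, (1 - β i * circleMap 0 1 θ)) := by
      apply continuous_finsetProd
      intro i _
      have := continuous_circleMap 0 1
      fun_prop
    exact Real.continuous_posLog.comp h1.norm
  have i1 := intervalIntegral.integral_sub (μ := volume) (a := 0) (b := 2 * π)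
    (f := fun θ : ℝ => 2 * Real.posLog ‖∏ j, (1 - β j * circleMap 0 1 θ)‖)
    (g := fun θ => Vf β (Z (0, θ)))
    ((continuous_const.mul hPc).intervalIntegrable _ _) (hVc.intervalIntegrable _ _)
  rw [← int_Vf hb, ← intervalIntegral.integral_const_mul, ← i1]
  apply intervalIntegral.integral_congr
  intro θ _
  simp only []
  have hU : Uf β (Z (0, θ)) = Vf β (Z (0, θ)) := by
    have h1 := gf_eq β (Z (0, θ))
    rw [gf_circle hb (hZ0 θ)] at h1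
    linarith
  rw [hU, ← Z_zero, norm_prod_eq (NZ_circle hb (hZ0 θ)), Real.posLog_apply, Real.log_exp]
  rcases le_total (Vf β (Z (0, θ))) 0 with h | h
  · rw [abs_of_nonpos h, max_eq_left h]; ring
  · rw [abs_of_nonneg h, max_eq_right h]; ring

end

end Pool.Agent.K3h99.Leh
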