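import Pool.Agent.K3h99.Leh.Area2

/-!
The area bound together with the energy bound.
-/

set_option autoImplicit false

namespace Pool.Agent.K3h99.Leh

open Complex MeasureTheory Metric Set Filter Topology ComplexConjugate

noncomputable section

variable {ι : Type*} [Fintype ι]

/-- the area and energy bound -/
theorem area_energy {α : ι → ℂ} (ha : ∀ i, ‖α i‖ ≠ 1) {K : ℝ} (hK : 0 < K) {S : ℝ} (hS : 0 ≤ S)
    (hfar : ∀ θ : ℝ, NZ α (Z (S, θ)) ∧
      gf α (Z (S, θ)) ≤ ep α + 1 / 4 ∧ |Vf α (Z (S, θ))| ≤ 1 / 4 ∧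
      1 ≤ K * S - gf α (Z (S, θ)) ∧ |psi α K (S, θ) * (bf α (Z (S, θ))).re| ≤ K / 4) :
    K * (∫ θ in (0:ℝ)..(2 * Real.pi), ∫ s in (0:ℝ)..S, (1 - chi α K (s, θ))) +
      (1 / K) * (∫ θ in (0:ℝ)..(2 * Real.pi), ∫ s in (0:ℝ)..S,
        chi α K (s, θ) * ‖bf α (Z (s, θ))‖ ^ 2) ≤
      2 * Real.pi * (ep α + 1) := by
  have hpi : (0:ℝ) ≤ 2 * Real.pi := by positivity
  set b := 2 * Real.pi with hb
  have hst := star ha K S hS
  rw [← hb] at hst
  rw [← (C0_chi_sq ha K).swap hS b]
  set E := ∫ s in (0:ℝ)..S, ∫ θ in (0:ℝ)..b, chi α K (s, θ) * ‖bf α (Z (s, θ))‖ ^ 2 with hE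
  -- split the left side of `star`
  have hX : ∫ s in (0:ℝ)..S, ∫ θ in (0:ℝ)..b,
      chi α K (s, θ) * (K * (bf α (Z (s, θ))).re - ‖bf α (Z (s, θ))‖ ^ 2) =
      K * (∫ s in (0:ℝ)..S, ∫ θ in (0:ℝ)..b, chi α K (s, θ) * (bf α (Z (s, θ))).re) - E := by
    rw [hE, ← intervalIntegral.integral_const_mul, ← intervalIntegral.integral_sub]
    · apply intervalIntegral.integral_congr
      intro s hs
      rw [uIcc_of_le hS] at hs
      simp only []
      rw [← intervalIntegral.integral_const_mul, ← intervalIntegral.integral_sub]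
      · apply intervalIntegral.integral_congr
        intro θ _
        simp only []
        ring
      · exact ((C0_chi_re ha K).int_θ hs.1 0 b).const_mul K
      · exact (C0_chi_sq ha K).int_θ hs.1 0 b
    · exact ((C0_chi_re ha K).int_s_int hS hpi).const_mul K
    · exact (C0_chi_sq ha K).int_s_int hS hpi
  have hbd : -(b * (K / 4)) ≤ ∫ θ in (0:ℝ)..b, psi α K (S, θ) * (bf α (Z (S, θ))).re := by
    have h1 : ‖∫ θ in (0:ℝ)..b, psi α K (S, θ) * (bf α (Z (S, θ))).re‖ ≤ (K / 4) * |b - 0| := by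
      apply intervalIntegral.norm_integral_le_of_norm_le_const
      intro θ _
      rw [Real.norm_eq_abs]
      exact (hfar θ).2.2.2.2
    rw [sub_zero, abs_of_nonneg hpi, Real.norm_eq_abs] at h1
    have := neg_abs_le (∫ θ in (0:ℝ)..b, psi α K (S, θ) * (bf α (Z (S, θ))).re)
    linarith
  have hA : (1 / K) * E - b / 4 ≤
      ∫ s in (0:ℝ)..S, ∫ θ in (0:ℝ)..b, chi α K (s, θ) * (bf α (Z (s, θ))).re := by
    rw [hX] at hst
    have h1 : E - b * (K / 4) ≤ K * (∫ s in (0:ℝ)..S, ∫ θ in (0:ℝ)..b,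
        chi α K (s, θ) * (bf α (Z (s, θ))).re) := by linarith
    have h2 : (1 / K) * E - b / 4 = (E - b * (K / 4)) / K := by field_simp
    rw [h2, div_le_iff₀ hK]
    linarith
  rw [(C0_chi_re ha K).swap hS b] at hA
  -- integrate `ray_psi`
  have hR : K * (∫ θ in (0:ℝ)..b, ∫ s in (0:ℝ)..S, (1 - chi α K (s, θ))) =
      (∫ θ in (0:ℝ)..b, (K * S - psi α K (S, θ))) -
      ∫ θ in (0:ℝ)..b, ∫ s in (0:ℝ)..S, chi α K (s, θ) * (bf α (Z (s, θ))).re := by
    rw [← intervalIntegral.integral_const_mul, ← intervalIntegral.integral_sub]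
    · apply intervalIntegral.integral_congr
      intro θ _
      simp only []
      rw [← ray_psi ha K θ hS, intervalIntegral.integral_sub]
      · simp
        ring
      · simp
      · exact (C0_chi ha K).int_s le_rfl hS θ
    · apply IntervalIntegrable.sub
      · simp
      · apply ContinuousOn.intervalIntegrable
        intro θ _
        have h1 : ContinuousAt (fun θ : ℝ => (S, θ)) θ := by fun_prop
        exact (ContinuousAt.comp (f := fun θ : ℝ => (S, θ))
          (hasFDerivAt_psi ha K (p := (S, θ)) hS).continuousAt h1).continuousWithinAt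
    · exact (C0_chi_re ha K).int_θ_int hS b
  have hP : ∫ θ in (0:ℝ)..b, (K * S - psi α K (S, θ)) ≤ b * (ep α + 3 / 4) := by
    have h1 : ∫ θ in (0:ℝ)..b, (K * S - psi α K (S, θ)) ≤ ∫ _θ in (0:ℝ)..b, (ep α + 3 / 4) := by
      apply intervalIntegral.integral_mono_on hpi
      · apply IntervalIntegrable.sub
        · simp
        · apply ContinuousOn.intervalIntegrable
          intro θ _
          have h1 : ContinuousAt (fun θ : ℝ => (S, θ)) θ := by fun_prop
          exact (ContinuousAt.comp (f := fun θ : ℝ => (S, θ))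
            (hasFDerivAt_psi ha K (p := (S, θ)) hS).continuousAt h1).continuousWithinAt
      · simp
      · intro θ _
        obtain ⟨e1, e2, e3, e4, e5⟩ := hfar θ
        rw [psi_of e1, hc_of_one_le e4]
        linarith
    rw [intervalIntegral.integral_const, sub_zero, smul_eq_mul] at h1
    exact h1
  rw [hR]
  linarith

end

end Pool.Agent.K3h99.Leh
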