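import Pool.Agent.K3h99.Leh2.Poly2

/-!
The bounds for the Mahler measure, by comparison with a rational function.
-/

set_option autoImplicit false

namespace Pool.Agent.K3h99.Leh

open MeasureTheory Metric Set Filter Topology Real
open Polynomial

noncomputable section

/-- distance of the first power sums of `f h` and `g` -/
def Bt (f g h : ℂ[X]) (L : ℕ) : ℝ :=
  √(∑ k ∈ Finset.Ico 1 L, ‖psum f k + psum h k - psum g k‖ ^ 2 / (k:ℝ) ^ 2)

/-- the quantity `((deg f + deg h) / L + B) (1 + m⁺(g) + m⁺(h))` -/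
def sd (f g h : ℂ[X]) (L : ℕ) : ℝ :=
  (((f.natDegree : ℝ) + h.natDegree) / L + Bt f g h L) * (1 + mp g + mp h)

lemma psum_mul (f h : ℂ[X]) (hfh : f * h ≠ 0) (k : ℕ) : psum (f * h) k = psum f k + psum h k := by
  unfold psum
  rw [roots_mul hfh, Multiset.map_add, Multiset.sum_add]

lemma sd_ge {f g h : ℂ[X]} {L : ℕ} (hL : 1 ≤ L) (hLn : L ≤ f.natDegree + h.natDegree) :
    1 ≤ sd f g h L := by
  unfold sd
  have hL0 : (0:ℝ) < L := by exact_mod_cast hL
  have h1 : (1:ℝ) ≤ ((f.natDegree : ℝ) + h.natDegree) / L := by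
    rw [le_div_iff₀ hL0, one_mul]; exact_mod_cast hLn
  have h2 : 0 ≤ Bt f g h L := Real.sqrt_nonneg _
  have h3 := mp_nonneg g
  have h4 := mp_nonneg h
  nlinarith

/-- the comparison theorem with a rational function -/
theorem comparison_rat (f g h : ℂ[X]) (hlf : 1 ≤ ‖f.leadingCoeff‖) (hM : f.mahlerMeasure < 2)
    (hlg : 1 ≤ ‖g.leadingCoeff‖) (hlh : 1 ≤ ‖h.leadingCoeff‖)
    (hd : g.natDegree ≤ f.natDegree + h.natDegree) {L : ℕ}
    (hL : 1 ≤ L) (hLn : L ≤ f.natDegree + h.natDegree) :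
    mp f ≤ 300 * sd f g h L := by
  have hf0 : f ≠ 0 := by
    rintro rfl; simp at hlf; linarith
  have hh0 : h ≠ 0 := by
    rintro rfl; simp at hlh; linarith
  have hfh : f * h ≠ 0 := mul_ne_zero hf0 hh0
  have hdeg : (f * h).natDegree = f.natDegree + h.natDegree := natDegree_mul hf0 hh0
  have hlc : 1 ≤ ‖(f * h).leadingCoeff‖ := by
    rw [leadingCoeff_mul, norm_mul]
    nlinarith
  have h1 := comparison (f * h) g hlc hlg (by rw [hdeg]; exact hd) hL (by rw [hdeg]; exact hLn)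
  have hB : Bd (f * h) g L = Bt f g h L := by
    unfold Bd Bt
    congr 1
    apply Finset.sum_congr rfl
    intro k _
    rw [psum_mul f h hfh]
  rw [hB, hdeg] at h1
  have h2 := mp_mul f h hh0
  have hMh : 0 ≤ Real.log h.mahlerMeasure :=
    Real.log_nonneg (one_le_mahlerMeasure_of_one_le_norm_leadingCoeff hlh)
  have hMf : Real.log f.mahlerMeasure ≤ 1 := by
    have hM0 : 0 < f.mahlerMeasure := Polynomial.mahlerMeasure_pos_of_ne_zero hf0
    have := Real.log_le_log hM0 hM.le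
    have h4 : Real.log 2 < 1 := by
      have := Real.log_two_lt_d9; linarith
    linarith
  have hMm : Real.log (f * h).mahlerMeasure =
      Real.log f.mahlerMeasure + Real.log h.mahlerMeasure := by
    rw [mahlerMeasure_mul, Real.log_mul (Polynomial.mahlerMeasure_pos_of_ne_zero hf0).ne'
      (Polynomial.mahlerMeasure_pos_of_ne_zero hh0).ne']
  have hMh2 : Real.log h.mahlerMeasure ≤ mp h := by
    rw [← logMahlerMeasure_eq_log_MahlerMeasure, logMahlerMeasure_def]
    unfold mp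
    apply Real.circleAverage_mono
    · exact h.intervalIntegrable_mahlerMeasure
    · apply ContinuousOn.circleIntegrable zero_le_one
      apply Continuous.continuousOn
      exact Real.continuous_posLog.comp (Polynomial.continuous h).norm
    · intro z _
      rw [Real.posLog_apply]; exact le_max_right _ _
  rw [hMm] at h1
  have hg0 := mp_nonneg g
  have hh1 := mp_nonneg h
  unfold sd
  push_cast at h1
  obtain ⟨x, hx⟩ : ∃ x : ℝ, x = ((f.natDegree : ℝ) + h.natDegree) / L + Bt f g h L := ⟨_, rfl⟩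
  rw [← hx] at h1 ⊢
  have hx1 : 1 ≤ x := by
    have hL0 : (0:ℝ) < L := by exact_mod_cast hL
    have h1 : (1:ℝ) ≤ ((f.natDegree : ℝ) + h.natDegree) / L := by
      rw [le_div_iff₀ hL0, one_mul]; exact_mod_cast hLn
    have h2 : 0 ≤ Bt f g h L := Real.sqrt_nonneg _
    rw [hx]; linarith
  have h7 : x * (1 + (Real.log f.mahlerMeasure + Real.log h.mahlerMeasure + mp g)) ≤
      x * (2 + mp h + mp g) := mul_le_mul_of_nonneg_left (by linarith) (by linarith)
  nlinarith

lemma TT_le2 {f : ℤ[X]} (hf : f ≠ 0) (hM : (cx f).mahlerMeasure < 2) {g h : ℂ[X]}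
    (hlg : 1 ≤ ‖g.leadingCoeff‖) (hlh : 1 ≤ ‖h.leadingCoeff‖)
    (hd : g.natDegree ≤ (cx f).natDegree + h.natDegree) {L : ℕ} (hL : 1 ≤ L)
    (hLn : L ≤ (cx f).natDegree + h.natDegree) : TT f ≤ 300 * sd (cx f) g h L :=
  comparison_rat (cx f) g h (lc_of_lt_two hf hM).ge hM hlg hlh hd hL hLn

/-- the irreducible case -/
theorem irr_bound2 : ∃ c : ℝ, 0 < c ∧ ∀ f : ℤ[X], Irreducible f → 1 < (cx f).mahlerMeasure →
    ∀ g h : ℂ[X], 1 ≤ ‖g.leadingCoeff‖ → 1 ≤ ‖h.leadingCoeff‖ →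
    g.natDegree ≤ (cx f).natDegree + h.natDegree →
    ∀ L : ℕ, 1 ≤ L → L ≤ (cx f).natDegree + h.natDegree →
      Real.exp (c / sd (cx f) g h L ^ 3) ≤ (cx f).mahlerMeasure := by
  obtain ⟨c0, hc0, h0⟩ := Pool.Agent.Results.MP_7ab245_nt.LogPlusMean.result
  refine ⟨min (c0 / 301 ^ 3) (Real.log 2), lt_min (by positivity) (Real.log_pos (by norm_num)), ?_⟩
  intro f hf hM g h hlg hlh hd L hL hLn
  have hs := sd_ge (g := g) hL hLn
  have hs0 : 0 < sd (cx f) g h L := by linarith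
  have hc := h0 f hf hM
  have e1 : Real.circleAverage (fun z : ℂ => Real.posLog ‖aeval z f‖) 0 1 = TT f := by
    unfold TT cx
    congr 1
    funext z
    rw [aeval_def, eval_map]
    rfl
  rw [e1] at hc
  rcases lt_or_ge (cx f).mahlerMeasure 2 with h2 | h2
  · refine le_trans (Real.exp_le_exp.2 ?_) hc
    have hT := TT_le2 hf.ne_zero h2 hlg hlh hd hL hLn
    have hT0 := TT_nonneg f
    have h3 : 1 + TT f ≤ 301 * sd (cx f) g h L := by linarith
    calc min (c0 / 301 ^ 3) (Real.log 2) / sd (cx f) g h L ^ 3 ≤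
          (c0 / 301 ^ 3) / sd (cx f) g h L ^ 3 :=
          div_le_div_of_nonneg_right (min_le_left _ _) (by positivity)
      _ = c0 / (301 * sd (cx f) g h L) ^ 3 := by rw [mul_pow, div_div]
      _ ≤ c0 / (1 + TT f) ^ 3 := by
          apply div_le_div_of_nonneg_left hc0.le (by positivity)
          exact pow_le_pow_left₀ (by positivity) h3 3
  · refine le_trans ?_ h2
    rw [← Real.le_log_iff_exp_le (by norm_num)]
    refine le_trans (div_le_self ?_ (one_le_pow₀ hs)) (min_le_right _ _)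
    exact (lt_min (by positivity) (Real.log_pos (by norm_num))).le

/-- the general case -/
theorem red_bound2 (Δ : ℝ) : ∃ μ : ℝ, 1 < μ ∧ ∀ f : ℤ[X], f ≠ 0 →
    ∀ g h : ℂ[X], 1 ≤ ‖g.leadingCoeff‖ → 1 ≤ ‖h.leadingCoeff‖ →
    g.natDegree ≤ (cx f).natDegree + h.natDegree →
    ∀ L : ℕ, 1 ≤ L → L ≤ (cx f).natDegree + h.natDegree → sd (cx f) g h L ≤ Δ →
      (cx f).mahlerMeasure = 1 ∨ μ ≤ (cx f).mahlerMeasure := by
  obtain ⟨c, hc, h⟩ := Pool.Agent.H261R2.CM.gap_logplus (300 * Δ)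
  refine ⟨min c 2, lt_min hc (by norm_num), ?_⟩
  intro f hf g h' hlg hlh hd L hL hLn hs
  rcases lt_or_ge (cx f).mahlerMeasure 2 with h2 | h2
  · have hT := TT_le2 hf h2 hlg hlh hd hL hLn
    have h3 := h f hf (by rw [mx1_eq]; linarith)
    rcases h3 with h4 | h4
    · exact Or.inl h4
    · exact Or.inr ((min_le_left _ _).trans h4)
  · exact Or.inr ((min_le_right _ _).trans h2)

/-- same top coefficients -/
lemma Bt_top (f g h : ℂ[X]) (hf : f ≠ 0) (hh : h ≠ 0) {L : ℕ} (hL : 1 ≤ L)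
    (hLn : L ≤ f.natDegree + h.natDegree)
    (H : (f * h - g).natDegree ≤ f.natDegree + h.natDegree - L) : Bt f g h L = 0 := by
  have hfh : f * h ≠ 0 := mul_ne_zero hf hh
  have hdeg : (f * h).natDegree = f.natDegree + h.natDegree := natDegree_mul hf hh
  have h1 := Bd_top (f * h) g hL (by rw [hdeg]; exact hLn) (by rw [hdeg]; exact H)
  unfold Bd at h1
  unfold Bt
  simp only [psum_mul f h hfh] at h1
  exact h1

end

end Pool.Agent.K3h99.Leh
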