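import Pool.Agent.K3h99.Leh2.Asm2

/-!
The comparison theorem for two polynomials.
-/

set_option autoImplicit false

namespace Pool.Agent.K3h99.Leh

open Complex MeasureTheory Metric Set Filter Topology ComplexConjugate InnerProductSpace Real

noncomputable section

variable {ι κ : Type*} [Fintype ι] [Fintype κ]

lemma numeric2 {n d L B T : ℝ} (hL : 1 ≤ L) (hn : L ≤ n) (hd : d ≤ n) (hB : 0 ≤ B)
    (hT : 0 ≤ T) :
    (5 / 4 + (1 + B)) + ((n / 2 + (L * (1 + B)) / 2 + 5 * (L / 8) / 2) * ((4 + 2 * T) / (L / 8)) +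
      (1 / (2 * (L / 8)) + 5 * (√(n + L * B) ^ 2)⁻¹) * ((4 + 2 * T) * (L / 8)) +
      (1 / (2 * (L * (1 + B))) + 5 * (√(n + L * B) ^ 2)⁻¹) * (L / 2 * B ^ 2) +
      √(n + L * B) * ((4 * √n + 4 * √d + √(L * (1 + B))) * (1 / (L / 4))) +
      5 * (√(n + L * B) ^ 2)⁻¹ * (n ^ 2 / 4) * (1 / (L / 4))) ≤
      100 * ((n / L + B) * (1 + T)) := by
  have hL0 : 0 < L := by linarith
  have hn0 : 0 < n := by linarith
  have hLB : 0 ≤ L * B := by positivity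
  have hdn : √d ≤ √n := Real.sqrt_le_sqrt hd
  obtain ⟨m, hm⟩ : ∃ m, m = n + L * B := ⟨_, rfl⟩
  rw [← hm]
  have hm0 : 0 < m := by rw [hm]; positivity
  have hsq : √m ^ 2 = m := Real.sq_sqrt hm0.le
  rw [hsq]
  have hD : 1 ≤ n / L := by rw [le_div_iff₀ hL0]; linarith
  have hmL : m / L = n / L + B := by rw [hm]; field_simp
  obtain ⟨x, hx⟩ : ∃ x, x = n / L + B := ⟨_, rfl⟩
  rw [← hx] at hmL ⊢
  have hx1 : 1 ≤ x := by rw [hx]; linarith
  have hLm : L ≤ m := by rw [hm]; linarith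
  have hnm : n ≤ m := by rw [hm]; linarith
  have t1 : (n / 2 + (L * (1 + B)) / 2 + 5 * (L / 8) / 2) * ((4 + 2 * T) / (L / 8)) =
      (4 + 2 * T) * (4 * (n / L) + 4 * (1 + B) + 5 / 2) := by
    field_simp; ring
  have t1' : (4 + 2 * T) * (4 * (n / L) + 4 * (1 + B) + 5 / 2) ≤ (4 + 2 * T) * (21 / 2 * x) := by
    apply mul_le_mul_of_nonneg_left _ (by positivity)
    rw [hx] at hx1 ⊢; linarith
  have t0 : (1 / (2 * (L / 8)) + 5 * m⁻¹) * ((4 + 2 * T) * (L / 8)) ≤ (4 + 2 * T) * (9 / 8 * x) := by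
    have e : (1 / (2 * (L / 8)) + 5 * m⁻¹) * ((4 + 2 * T) * (L / 8)) =
        (4 + 2 * T) * (1 / 2 + 5 / 8 * (L / m)) := by
      field_simp
      try ring
    rw [e]
    apply mul_le_mul_of_nonneg_left _ (by positivity)
    have h1 : L / m ≤ 1 := by rw [div_le_one hm0]; exact hLm
    linarith
  have t2 : 1 / (2 * (L * (1 + B))) * (L / 2 * B ^ 2) ≤ B / 4 := by
    have e : 1 / (2 * (L * (1 + B))) * (L / 2 * B ^ 2) = B ^ 2 / (4 * (1 + B)) := by field_simp; ring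
    rw [e, div_le_div_iff₀ (by positivity) (by norm_num)]; nlinarith
  have t3 : 5 * m⁻¹ * (L / 2 * B ^ 2) ≤ 5 / 2 * B := by
    have e : 5 * m⁻¹ * (L / 2 * B ^ 2) = (5 / 2 * L * B ^ 2) / m := by
      field_simp
    rw [e, div_le_iff₀ hm0, hm]
    nlinarith
  have s1 : √m * √n ≤ m := by
    rw [← Real.sqrt_mul hm0.le]
    rw [Real.sqrt_le_left hm0.le]
    nlinarith
  have s3 : √m * √d ≤ m :=
    (mul_le_mul_of_nonneg_left hdn (Real.sqrt_nonneg m)).trans s1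
  have s2 : √m * √(L * (1 + B)) ≤ m := by
    rw [← Real.sqrt_mul hm0.le]
    rw [Real.sqrt_le_left hm0.le]
    have : L * (1 + B) ≤ m := by rw [hm]; linarith
    nlinarith
  have t4 : √m * ((4 * √n + 4 * √d + √(L * (1 + B))) * (1 / (L / 4))) ≤ 36 * x := by
    have e : √m * ((4 * √n + 4 * √d + √(L * (1 + B))) * (1 / (L / 4))) =
        (4 * (√m * √n) + 4 * (√m * √d) + √m * √(L * (1 + B))) * (4 / L) := by field_simp
    rw [e, ← hmL]
    have h1 : 4 * (√m * √n) + 4 * (√m * √d) + √m * √(L * (1 + B)) ≤ 9 * m := by linarith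
    have h2 := mul_le_mul_of_nonneg_right h1 (by positivity : 0 ≤ 4 / L)
    refine h2.trans (le_of_eq ?_)
    field_simp; ring
  have t5 : 5 * m⁻¹ * (n ^ 2 / 4) * (1 / (L / 4)) ≤ 5 * x := by
    have e : 5 * m⁻¹ * (n ^ 2 / 4) * (1 / (L / 4)) = 5 * (n / L) * (n / m) := by field_simp
    rw [e]
    have h1 : n / m ≤ 1 := by rw [div_le_one hm0]; exact hnm
    have h2 : 0 ≤ 5 * (n / L) := by positivity
    have h3 : n / L ≤ x := by rw [hx]; linarith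
    nlinarith
  have hBx : B ≤ x := by rw [hx]; linarith
  rw [t1]
  have hTx : 0 ≤ T * x := by positivity
  have e5 : (1 / (2 * (L * (1 + B))) + 5 * m⁻¹) * (L / 2 * B ^ 2) =
      1 / (2 * (L * (1 + B))) * (L / 2 * B ^ 2) + 5 * m⁻¹ * (L / 2 * B ^ 2) := by ring
  rw [e5]
  have fin : (4 + 2 * T) * (21 / 2 * x) + (4 + 2 * T) * (9 / 8 * x) + (B / 4 + 5 / 2 * B) + 36 * x +
      5 * x + (5 / 4 + (1 + B)) ≤ 100 * (x * (1 + T)) := by
    nlinarith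
  linarith

/-- **The comparison theorem**, no zeros on the circle. -/
theorem T_bound2 {α : ι → ℂ} {β : κ → ℂ} (ha : ∀ i, ‖α i‖ ≠ 1) (hb : ∀ j, ‖β j‖ ≠ 1)
    {L : ℕ} (hL : 1 ≤ L) (hLn : L ≤ Fintype.card ι) (hd : Fintype.card κ ≤ Fintype.card ι)
    {T1 : ℝ}
    (hT1 : ∫ θ in (0:ℝ)..(2 * π), Real.posLog ‖∏ j, (1 - β j * circleMap 0 1 θ)‖ = 2 * π * T1) :
    ∫ θ in (0:ℝ)..(2 * π), Real.posLog ‖∏ i, (1 - α i * circleMap 0 1 θ)‖ ≤
      2 * π * (100 * (((Fintype.card ι : ℝ) / L + Bg (dl α β) L) * (1 + (ep α + T1)))) := by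
  classical
  obtain ⟨T, hT⟩ : ∃ T : ℝ, T = ep α + T1 := ⟨_, rfl⟩
  have hpi : (0:ℝ) ≤ 2 * π := by positivity
  have hpi' : (0:ℝ) < 2 * π := by positivity
  have hL0 : (0:ℝ) < L := by exact_mod_cast hL
  obtain ⟨n, hn⟩ : ∃ n : ℝ, n = (Fintype.card ι : ℝ) := ⟨_, rfl⟩
  obtain ⟨d, hdd⟩ : ∃ d : ℝ, d = (Fintype.card κ : ℝ) := ⟨_, rfl⟩
  have hLn' : (L:ℝ) ≤ n := by rw [hn]; exact_mod_cast hLn
  have hd' : d ≤ n := by rw [hn, hdd]; exact_mod_cast hd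
  obtain ⟨B, hB⟩ : ∃ B, B = Bg (dl α β) L := ⟨_, rfl⟩
  have hB0 : 0 ≤ B := by rw [hB]; exact Bg_nonneg _ _
  obtain ⟨K, hK⟩ : ∃ K : ℝ, K = (L:ℝ) / 8 := ⟨_, rfl⟩
  have hK0 : 0 < K := by rw [hK]; positivity
  obtain ⟨μ, hμ⟩ : ∃ μ : ℝ, μ = L * (1 + B) := ⟨_, rfl⟩
  have hμ0 : 0 < μ := by rw [hμ]; positivity
  obtain ⟨l0, hl0⟩ : ∃ l0 : ℝ, l0 = √(n + L * B) := ⟨_, rfl⟩
  have hn0 : 0 < n := by linarith
  have hl00 : 0 < l0 := by rw [hl0]; exact Real.sqrt_pos.2 (by positivity)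
  have hT10 : 0 ≤ T1 := by
    have h1 : 0 ≤ ∫ θ in (0:ℝ)..(2 * π), Real.posLog ‖∏ j, (1 - β j * circleMap 0 1 θ)‖ :=
      intervalIntegral.integral_nonneg hpi fun _ _ => Real.posLog_nonneg
    rw [hT1] at h1
    exact nonneg_of_mul_nonneg_right h1 hpi'
  have hepa := ep_nonneg α
  have hT0 : 0 ≤ T := by rw [hT]; positivity
  obtain ⟨S, hS, hfar⟩ := far2 ha hb hK0 L
  have hZc : Continuous (fun θ : ℝ => Z (0, θ)) := continuous_Z.comp (by fun_prop)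
  have hP : Continuous (fun θ : ℝ => ‖Pg (dl α β) L (Z (0, θ))‖) :=
    ((continuous_Pg (dl α β) L).comp hZc).norm
  have hP' : Continuous (fun θ : ℝ => 5 / 4 + ‖Pg (dl α β) L (Z (0, θ))‖) :=
    continuous_const.add hP
  have hXC := C0_Xg ha hb L μ l0
  -- integrate the pointwise bound
  have step1 : ∫ θ in (0:ℝ)..(2 * π), Real.posLog ‖∏ i, (1 - α i * circleMap 0 1 θ)‖ ≤
      (∫ θ in (0:ℝ)..(2 * π), (5 / 4 + ‖Pg (dl α β) L (Z (0, θ))‖)) + JJ S (Xg α β L μ l0) := by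
    unfold JJ
    rw [← intervalIntegral.integral_add (hP'.intervalIntegrable _ _) (hXC.int_θ_int hS _)]
    apply intervalIntegral.integral_mono_on hpi
    · apply Continuous.intervalIntegrable
      have h1 : Continuous (fun θ : ℝ => ∏ i, (1 - α i * circleMap 0 1 θ)) := by
        apply continuous_finsetProd
        intro i _
        have := continuous_circleMap 0 1
        fun_prop
      exact Real.continuous_posLog.comp h1.norm
    · exact (hP'.intervalIntegrable _ _).add (hXC.int_θ_int hS _)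
    · intro θ _
      have h := ray_bound2 ha hb hL hμ0 hl00 hS θ (by rw [← hK]; exact hfar θ)
      simpa only [Z_zero] using h
  have step1' : ∫ θ in (0:ℝ)..(2 * π), (5 / 4 + ‖Pg (dl α β) L (Z (0, θ))‖) =
      2 * π * (5 / 4) + ∫ θ in (0:ℝ)..(2 * π), ‖Pg (dl α β) L (Z (0, θ))‖ := by
    have i1 := intervalIntegral.integral_add (μ := volume) (a := 0) (b := 2 * π)
      (f := fun _ : ℝ => (5 / 4 : ℝ)) (g := fun θ => ‖Pg (dl α β) L (Z (0, θ))‖) (by simp)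
      (hP.intervalIntegrable _ _)
    rw [i1]
    simp
    ring
  -- split
  have cB := C0_BB ha hb K
  have cE := C0_EE ha hb K
  have step2 : JJ S (Xg α β L μ l0) = (n / 2 + μ / 2 + 5 * K / 2) * JJ S (BB α β K) +
      (1 / (2 * K) + 5 * (l0 ^ 2)⁻¹) * JJ S (EE α β K) +
      (1 / (2 * μ) + 5 * (l0 ^ 2)⁻¹) * JJ S (fun p => ‖pg (dl α β) L (Z p)‖ ^ 2) +
      l0 * JJ S (fun p => Real.exp (-(L / 4 * p.1)) * YY α β L (Z p)) +
      5 * (l0 ^ 2)⁻¹ * (n ^ 2 / 4) * JJ S (fun p => Real.exp (-(L / 4 * p.1))) := by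
    have e : Xg α β L μ l0 = fun p => ((((n / 2 + μ / 2 + 5 * K / 2) * BB α β K p) +
      (1 / (2 * K) + 5 * (l0 ^ 2)⁻¹) * EE α β K p) +
      (1 / (2 * μ) + 5 * (l0 ^ 2)⁻¹) * ‖pg (dl α β) L (Z p)‖ ^ 2 +
      l0 * (Real.exp (-(L / 4 * p.1)) * YY α β L (Z p))) +
      5 * (l0 ^ 2)⁻¹ * (n ^ 2 / 4) * Real.exp (-(L / 4 * p.1)) := by
      funext p
      unfold Xg
      rw [← hK, ← hn]
    have c1 := cB.const_mul (n / 2 + μ / 2 + 5 * K / 2)
    have c2 := cE.const_mul (1 / (2 * K) + 5 * (l0 ^ 2)⁻¹)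
    have c3 := (C0_pg (dl α β) L).const_mul (1 / (2 * μ) + 5 * (l0 ^ 2)⁻¹)
    have c4 := ((C0_exp (L / 4)).mul (C0_YY ha hb L)).const_mul l0
    have c5 := (C0_exp (L / 4)).const_mul (5 * (l0 ^ 2)⁻¹ * (n ^ 2 / 4))
    rw [e, JJ_add hS (((c1.add c2).add c3).add c4) c5, JJ_add hS ((c1.add c2).add c3) c4,
      JJ_add hS (c1.add c2) c3, JJ_add hS c1 c2, JJ_mul, JJ_mul, JJ_mul, JJ_mul, JJ_mul]
  -- areas and energies
  have a1 := area_energy ha hK0 hS (fun θ => (hfar θ).a)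
  have a2 := area_energy hb hK0 hS (fun θ => (hfar θ).b)
  have a3 := har_energy hb hK0 hS (fun θ => (hfar θ).c)
  rw [int_abs_Uf hb, hT1] at a3
  have hBsplit : JJ S (BB α β K) =
      (∫ θ in (0:ℝ)..(2 * Real.pi), ∫ s in (0:ℝ)..S, (1 - chi α K (s, θ))) +
      (∫ θ in (0:ℝ)..(2 * Real.pi), ∫ s in (0:ℝ)..S, (1 - chi β K (s, θ))) +
      (∫ θ in (0:ℝ)..(2 * Real.pi), ∫ s in (0:ℝ)..S, (1 - chi3 β K (s, θ))) := by
    have c1 := (C0.const 1).sub (C0_chi ha K)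
    have c2 := (C0.const 1).sub (C0_chi hb K)
    have c3 := (C0.const 1).sub (C0_chi3 hb K)
    have e : BB α β K = fun p => ((1 - chi α K p) + (1 - chi β K p)) + (1 - chi3 β K p) := rfl
    rw [e, JJ_add hS (c1.add c2) c3, JJ_add hS c1 c2]
    rfl
  have hEsplit : JJ S (EE α β K) =
      (∫ θ in (0:ℝ)..(2 * Real.pi), ∫ s in (0:ℝ)..S, chi α K (s, θ) * ‖bf α (Z (s, θ))‖ ^ 2) +
      (∫ θ in (0:ℝ)..(2 * Real.pi), ∫ s in (0:ℝ)..S, chi β K (s, θ) * ‖bf β (Z (s, θ))‖ ^ 2) +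
      (∫ θ in (0:ℝ)..(2 * Real.pi), ∫ s in (0:ℝ)..S,
        chi3 β K (s, θ) * ‖cf β (Z (s, θ))‖ ^ 2) := by
    have c1 := C0_chi_sq ha K
    have c2 := C0_chi_sq hb K
    have c3 := (C0_chi3 hb K).mul (C0_csq hb)
    have e : EE α β K = fun p => (chi α K p * ‖bf α (Z p)‖ ^ 2 + chi β K p * ‖bf β (Z p)‖ ^ 2) +
      chi3 β K p * ‖cf β (Z p)‖ ^ 2 := rfl
    rw [e, JJ_add hS (c1.add c2) c3, JJ_add hS c1 c2]
    rfl
  have hAE : K * JJ S (BB α β K) + (1 / K) * JJ S (EE α β K) ≤ 2 * π * (4 + 2 * T) := by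
    have h1 : 0 ≤ 2 * π * ep α := mul_nonneg hpi hepa
    have h2 : 2 * π * (4 + 2 * T) = 2 * π * 4 + 2 * (2 * π * ep α) + 2 * (2 * π * T1) := by
      rw [hT]; ring
    rw [hBsplit, hEsplit, h2]
    have e1 : 2 * π * (ep α + 1) = 2 * π * ep α + 2 * π := by ring
    have e2 : 2 * π * (ep β + 1) = 2 * π * ep β + 2 * π := by ring
    rw [e1] at a1
    rw [e2] at a2
    nlinarith
  have hBB0 : 0 ≤ JJ S (BB α β K) := by
    unfold JJ
    apply intervalIntegral.integral_nonneg hpi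
    intro θ _
    apply intervalIntegral.integral_nonneg hS
    intro s _
    exact BB_nonneg _ _ _ _
  have hEE0 : 0 ≤ JJ S (EE α β K) := by
    unfold JJ
    apply intervalIntegral.integral_nonneg hpi
    intro θ _
    apply intervalIntegral.integral_nonneg hS
    intro s hs
    exact EE_nonneg _ _ hK0.le (p := (s, θ)) hs.1
  have a1' : JJ S (BB α β K) ≤ 2 * π * ((4 + 2 * T) / K) := by
    rw [← mul_div_assoc, le_div_iff₀ hK0]
    have : 0 ≤ (1 / K) * JJ S (EE α β K) := by positivity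
    linarith
  have a2' : JJ S (EE α β K) ≤ 2 * π * ((4 + 2 * T) * K) := by
    have h1 : (1 / K) * JJ S (EE α β K) ≤ 2 * π * (4 + 2 * T) := by
      have : 0 ≤ K * JJ S (BB α β K) := by positivity
      linarith
    have h2 := mul_le_mul_of_nonneg_left h1 hK0.le
    have e : K * ((1 / K) * JJ S (EE α β K)) = JJ S (EE α β K) := by field_simp
    rw [e] at h2
    linarith
  have a4 := JJ_pg (dl α β) L hS
  have a5 := JJ_YY ha hb hL hS (a := L / 4) (by positivity)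
  have a6 : JJ S (fun p => Real.exp (-(L / 4 * p.1))) ≤ 2 * π * (1 / ((L:ℝ) / 4)) :=
    JJ_exp (by positivity)
  have a0 := circle_Pg (dl α β) L
  rw [← hn, ← hdd, ← hB] at a5
  rw [← hB] at a4 a0
  have b1 := mul_le_mul_of_nonneg_left a1' (by positivity : 0 ≤ n / 2 + μ / 2 + 5 * K / 2)
  have b2 := mul_le_mul_of_nonneg_left a2' (by positivity : 0 ≤ 1 / (2 * K) + 5 * (l0 ^ 2)⁻¹)
  have b3 := mul_le_mul_of_nonneg_left a4 (by positivity : 0 ≤ 1 / (2 * μ) + 5 * (l0 ^ 2)⁻¹)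
  have b4 := mul_le_mul_of_nonneg_left a5 hl00.le
  have b5 := mul_le_mul_of_nonneg_left a6 (by positivity : 0 ≤ 5 * (l0 ^ 2)⁻¹ * (n ^ 2 / 4))
  have hnum := numeric2 (n := n) (d := d) (L := L) (B := B) (T := T) (by exact_mod_cast hL)
    hLn' hd' hB0 hT0
  have hnum2 := mul_le_mul_of_nonneg_left hnum hpi
  rw [← hl0, ← hμ, ← hK] at hnum2
  have hfin : 2 * π * ((5 / 4 + (1 + B)) + ((n / 2 + μ / 2 + 5 * K / 2) * ((4 + 2 * T) / K) +
      (1 / (2 * K) + 5 * (l0 ^ 2)⁻¹) * ((4 + 2 * T) * K) +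
      (1 / (2 * μ) + 5 * (l0 ^ 2)⁻¹) * (L / 2 * B ^ 2) +
      l0 * ((4 * √n + 4 * √d + √μ) * (1 / (L / 4))) +
      5 * (l0 ^ 2)⁻¹ * (n ^ 2 / 4) * (1 / (L / 4)))) =
      2 * π * (5 / 4) + 2 * π * (1 + B) +
      ((n / 2 + μ / 2 + 5 * K / 2) * (2 * π * ((4 + 2 * T) / K)) +
      (1 / (2 * K) + 5 * (l0 ^ 2)⁻¹) * (2 * π * ((4 + 2 * T) * K)) +
      (1 / (2 * μ) + 5 * (l0 ^ 2)⁻¹) * (2 * π * (L / 2 * B ^ 2)) +
      l0 * (2 * π * ((4 * √n + 4 * √d + √μ) * (1 / (L / 4)))) +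
      5 * (l0 ^ 2)⁻¹ * (n ^ 2 / 4) * (2 * π * (1 / (L / 4)))) := by ring
  rw [hfin] at hnum2
  rw [← hμ] at b4
  rw [step1', step2] at step1
  rw [← hn, ← hB, ← hT]
  linarith

end

end Pool.Agent.K3h99.Leh
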