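import Pool.Agent.K3h99.Leh.Lim
import Pool.Agent.K3h99.Leh2.Main2

/-!
The comparison theorem with zeros on the circle, by scaling.
-/

set_option autoImplicit false

namespace Pool.Agent.K3h99.Leh

open Complex MeasureTheory Metric Set Filter Topology ComplexConjugate InnerProductSpace Real

noncomputable section

variable {ι κ : Type*} [Fintype ι] [Fintype κ]

/-- mean of `log⁺ |∏ (1 - α i z)|` -/
def Tm (α : ι → ℂ) : ℝ :=
  (2 * π)⁻¹ * ∫ θ in (0:ℝ)..(2 * π), Real.posLog ‖∏ i, (1 - α i * circleMap 0 1 θ)‖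

lemma Tm_nonneg (α : ι → ℂ) : 0 ≤ Tm α := by
  unfold Tm
  apply mul_nonneg (by positivity)
  exact intervalIntegral.integral_nonneg (by positivity) fun _ _ => Real.posLog_nonneg

lemma Tm_mul (α : ι → ℂ) :
    ∫ θ in (0:ℝ)..(2 * π), Real.posLog ‖∏ i, (1 - α i * circleMap 0 1 θ)‖ = 2 * π * Tm α := by
  unfold Tm
  rw [← mul_assoc, mul_inv_cancel₀ (by positivity), one_mul]

lemma continuous_Tm (α : ι → ℂ) : Continuous (fun r : ℝ => Tm (fun i => (r:ℂ) * α i)) := by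
  unfold Tm
  apply Continuous.mul continuous_const
  apply intervalIntegral.continuous_parametric_intervalIntegral_of_continuous'
  have h1 : Continuous (fun p : ℝ × ℝ => ∏ i, (1 - ((p.1:ℂ) * α i) * circleMap 0 1 p.2)) := by
    apply continuous_finsetProd
    intro i _
    have h2 : Continuous (fun p : ℝ × ℝ => circleMap 0 1 p.2) :=
      (continuous_circleMap 0 1).comp continuous_snd
    fun_prop
  exact Real.continuous_posLog.comp h1.norm

lemma Tm_lim (α : ι → ℂ) : Tendsto (fun r : ℝ => Tm (fun i => (r:ℂ) * α i)) (𝓝[<] 1) (𝓝 (Tm α)) := by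
  have h := ((continuous_Tm α).tendsto 1).mono_left (nhdsWithin_le_nhds (s := Set.Iio (1:ℝ)))
  simpa using h

lemma Bg_scale (α : ι → ℂ) (β : κ → ℂ) {r : ℝ} (h0 : 0 ≤ r) (h1 : r ≤ 1) (L : ℕ) :
    Bg (dl (fun i => (r:ℂ) * α i) (fun j => (r:ℂ) * β j)) L ≤ Bg (dl α β) L := by
  unfold Bg
  apply Real.sqrt_le_sqrt
  unfold B2g
  apply Finset.sum_le_sum
  intro k _
  apply div_le_div_of_nonneg_right _ (by positivity)
  have e : dl (fun i => (r:ℂ) * α i) (fun j => (r:ℂ) * β j) k = (r:ℂ) ^ k * dl α β k := by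
    unfold dl
    rw [pk_scale, pk_scale]; ring
  rw [e, norm_mul, norm_pow, Complex.norm_real, Real.norm_of_nonneg h0, mul_pow]
  have h2 : (r ^ k) ^ 2 ≤ 1 := pow_le_one₀ (by positivity) (pow_le_one₀ h0 h1)
  nlinarith [sq_nonneg ‖dl α β k‖]

lemma ev_ne (α : ι → ℂ) : ∀ᶠ r : ℝ in 𝓝[<] 1, ∀ i, r * ‖α i‖ ≠ 1 := by
  have e2 : ∀ᶠ r : ℝ in 𝓝[<] 1, r < 1 := eventually_mem_nhdsWithin
  rw [Filter.eventually_all]
  intro i
  by_cases h : ‖α i‖ = 1
  · filter_upwards [e2] with r hr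
    rw [h, mul_one]; exact hr.ne
  · have hc : ContinuousAt (fun r : ℝ => r * ‖α i‖) 1 := by fun_prop
    exact (hc.eventually_ne (by rwa [one_mul])).filter_mono nhdsWithin_le_nhds

/-- **The comparison theorem.** -/
theorem T_bound3 (α : ι → ℂ) (β : κ → ℂ) {L : ℕ} (hL : 1 ≤ L)
    (hLn : L ≤ Fintype.card ι) (hd : Fintype.card κ ≤ Fintype.card ι) :
    Tm α ≤ 100 * (((Fintype.card ι : ℝ) / L + Bg (dl α β) L) * (1 + (ep α + Tm β))) := by
  have hlim2 : Tendsto (fun r : ℝ => 100 * (((Fintype.card ι : ℝ) / L + Bg (dl α β) L) *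
      (1 + (ep α + Tm (fun j => (r:ℂ) * β j))))) (𝓝[<] 1)
      (𝓝 (100 * (((Fintype.card ι : ℝ) / L + Bg (dl α β) L) * (1 + (ep α + Tm β))))) :=
    (((Tm_lim β).const_add (ep α)).const_add 1).const_mul
      ((Fintype.card ι : ℝ) / L + Bg (dl α β) L) |>.const_mul 100
  refine le_of_tendsto_of_tendsto (Tm_lim α) hlim2 ?_
  have e1 : ∀ᶠ r : ℝ in 𝓝[<] 1, 0 < r := by
    have : ∀ᶠ r : ℝ in 𝓝 1, 0 < r := lt_mem_nhds one_pos
    exact this.filter_mono nhdsWithin_le_nhds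
  have e2 : ∀ᶠ r : ℝ in 𝓝[<] 1, r < 1 := eventually_mem_nhdsWithin
  filter_upwards [e1, e2, ev_ne α, ev_ne β] with r h1 h2 h3 h4
  have ha : ∀ i, ‖(r:ℂ) * α i‖ ≠ 1 := by
    intro i
    rw [norm_mul, Complex.norm_real, Real.norm_of_nonneg h1.le]
    exact h3 i
  have hb : ∀ i, ‖(r:ℂ) * β i‖ ≠ 1 := by
    intro i
    rw [norm_mul, Complex.norm_real, Real.norm_of_nonneg h1.le]
    exact h4 i
  have h := T_bound2 ha hb hL hLn hd (Tm_mul (fun j => (r:ℂ) * β j))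
  rw [Tm_mul] at h
  have h5 := le_of_mul_le_mul_left h (by positivity : (0:ℝ) < 2 * π)
  refine h5.trans ?_
  apply mul_le_mul_of_nonneg_left _ (by norm_num)
  have q1 := Tm_nonneg (fun j => (r:ℂ) * β j)
  have q2 := ep_scale α h1.le h2.le
  have q3 := ep_nonneg (fun i => (r:ℂ) * α i)
  have q4 := Bg_scale α β h1.le h2.le L
  have q5 : 0 ≤ Bg (dl α β) L := Bg_nonneg _ _
  apply mul_le_mul (by linarith) (by linarith) (by linarith) (by positivity)

end

end Pool.Agent.K3h99.Leh
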