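import Pool.Agent.K3h99.Leh.Pars

/-!
Parseval bounds for a truncated series with arbitrary coefficients.
-/

set_option autoImplicit false

namespace Pool.Agent.K3h99.Leh

open Complex MeasureTheory Metric Set Filter Topology ComplexConjugate InnerProductSpace Real
open Pool.Agent.GapMahler

noncomputable section

def pg (δ : ℕ → ℂ) (L : ℕ) (z : ℂ) : ℂ := ∑ k ∈ Finset.Ico 1 L, δ k * z ^ k

def Pg (δ : ℕ → ℂ) (L : ℕ) (z : ℂ) : ℂ := ∑ k ∈ Finset.Ico 1 L, (δ k / k) * z ^ k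

/-- the weighted square sum of the power sums -/
def B2g (δ : ℕ → ℂ) (L : ℕ) : ℝ := ∑ k ∈ Finset.Ico 1 L, ‖δ k‖ ^ 2 / (k:ℝ) ^ 2

lemma B2g_nonneg (δ : ℕ → ℂ) (L : ℕ) : 0 ≤ B2g δ L :=
  Finset.sum_nonneg fun _ _ => by positivity

lemma continuous_pg (δ : ℕ → ℂ) (L : ℕ) : Continuous (pg δ L) := by
  unfold pg; fun_prop

lemma continuous_Pg (δ : ℕ → ℂ) (L : ℕ) : Continuous (Pg δ L) := by
  unfold Pg; fun_prop

lemma C0_pg (δ : ℕ → ℂ) (L : ℕ) : C0 (fun p => ‖pg δ L (Z p)‖ ^ 2) :=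
  C0.of_continuous (((continuous_pg δ L).comp continuous_Z).norm.pow 2)

theorem pars_pg (δ : ℕ → ℂ) (L : ℕ) {S : ℝ} (hS : 0 ≤ S) :
    ∫ s in (0:ℝ)..S, ∫ θ in (0:ℝ)..(2 * π), ‖pg δ L (Z (s, θ))‖ ^ 2 ≤
      2 * π * (L / 2 * B2g δ L) := by
  have hpi : (0:ℝ) ≤ 2 * π := by positivity
  calc ∫ s in (0:ℝ)..S, ∫ θ in (0:ℝ)..(2 * π), ‖pg δ L (Z (s, θ))‖ ^ 2
      ≤ ∫ s in (0:ℝ)..S, 2 * π * ∑ k ∈ Finset.Ico 1 L, ‖δ k‖ ^ 2 * Real.exp (-(2 * k * s)) := by
        apply intervalIntegral.integral_mono_on hS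
        · exact (C0_pg δ L).int_s_int hS hpi
        · apply Continuous.intervalIntegrable; fun_prop
        · intro s _
          exact pars δ L s
    _ = 2 * π * ∑ k ∈ Finset.Ico 1 L, ‖δ k‖ ^ 2 * ∫ s in (0:ℝ)..S, Real.exp (-(2 * k * s)) := by
        rw [intervalIntegral.integral_const_mul, intervalIntegral.integral_finsetSum]
        · congr 1
          apply Finset.sum_congr rfl
          intro k _
          rw [intervalIntegral.integral_const_mul]
        · intro k _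
          apply Continuous.intervalIntegrable; fun_prop
    _ ≤ 2 * π * (L / 2 * B2g δ L) := by
        apply mul_le_mul_of_nonneg_left _ hpi
        unfold B2g
        rw [Finset.mul_sum]
        apply Finset.sum_le_sum
        intro k hk
        rw [Finset.mem_Ico] at hk
        have hk0 : (0:ℝ) < k := by exact_mod_cast hk.1
        have hkL : (k:ℝ) ≤ L := by exact_mod_cast hk.2.le
        have h1 : ∫ s in (0:ℝ)..S, Real.exp (-(2 * k * s)) ≤ 1 / (2 * k) := int_exp_le (by positivity)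
        calc ‖δ k‖ ^ 2 * ∫ s in (0:ℝ)..S, Real.exp (-(2 * k * s)) ≤ ‖δ k‖ ^ 2 * (1 / (2 * k)) :=
              mul_le_mul_of_nonneg_left h1 (by positivity)
          _ = k / 2 * (‖δ k‖ ^ 2 / (k:ℝ) ^ 2) := by field_simp
          _ ≤ L / 2 * (‖δ k‖ ^ 2 / (k:ℝ) ^ 2) := by
              apply mul_le_mul_of_nonneg_right _ (by positivity)
              linarith

lemma circle_pg (δ : ℕ → ℂ) (L : ℕ) :
    ∫ θ in (0:ℝ)..(2 * π), ‖pg δ L (Z (0, θ))‖ ^ 2 ≤ 2 * π * ((L:ℝ) ^ 2 * B2g δ L) := by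
  refine (pars δ L 0).trans ?_
  apply mul_le_mul_of_nonneg_left _ (by positivity)
  unfold B2g
  rw [Finset.mul_sum]
  apply Finset.sum_le_sum
  intro k hk
  rw [Finset.mem_Ico] at hk
  have hk0 : (0:ℝ) < k := by exact_mod_cast hk.1
  have hkL : (k:ℝ) ≤ L := by exact_mod_cast hk.2.le
  rw [mul_zero, neg_zero, Real.exp_zero, mul_one]
  have h1 : (k:ℝ) ^ 2 ≤ (L:ℝ) ^ 2 := by nlinarith
  calc ‖δ k‖ ^ 2 = (k:ℝ) ^ 2 * (‖δ k‖ ^ 2 / (k:ℝ) ^ 2) := by field_simp
    _ ≤ _ := mul_le_mul_of_nonneg_right h1 (by positivity)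

lemma circle_Pg2 (δ : ℕ → ℂ) (L : ℕ) :
    ∫ θ in (0:ℝ)..(2 * π), ‖Pg δ L (Z (0, θ))‖ ^ 2 ≤ 2 * π * B2g δ L := by
  refine (pars (fun k => δ k / k) L 0).trans ?_
  apply mul_le_mul_of_nonneg_left _ (by positivity)
  unfold B2g
  apply Finset.sum_le_sum
  intro k _
  rw [mul_zero, neg_zero, Real.exp_zero, mul_one, norm_div, Complex.norm_natCast, div_pow]

/-- `B` -/
def Bg (δ : ℕ → ℂ) (L : ℕ) : ℝ := √(B2g δ L)

lemma Bg_nonneg (δ : ℕ → ℂ) (L : ℕ) : 0 ≤ Bg δ L := Real.sqrt_nonneg _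
lemma Bg_sq (δ : ℕ → ℂ) (L : ℕ) : Bg δ L ^ 2 = B2g δ L := Real.sq_sqrt (B2g_nonneg δ L)

theorem circle_Pg (δ : ℕ → ℂ) (L : ℕ) :
    ∫ θ in (0:ℝ)..(2 * π), ‖Pg δ L (Z (0, θ))‖ ≤ 2 * π * (1 + Bg δ L) := by
  have hpi : (0:ℝ) ≤ 2 * π := by positivity
  set B := Bg δ L with hB
  have hB0 : 0 ≤ B := Bg_nonneg δ L
  have hc : Continuous (fun θ : ℝ => Pg δ L (Z (0, θ))) :=
    (continuous_Pg δ L).comp (continuous_Z.comp (by fun_prop))
  calc ∫ θ in (0:ℝ)..(2 * π), ‖Pg δ L (Z (0, θ))‖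
      ≤ ∫ θ in (0:ℝ)..(2 * π), (1 / (2 * (1 + B)) * ‖Pg δ L (Z (0, θ))‖ ^ 2 + (1 + B) / 2) := by
        apply intervalIntegral.integral_mono_on hpi (hc.norm.intervalIntegrable _ _)
        · exact ((continuous_const.mul (hc.norm.pow 2)).add continuous_const).intervalIntegrable _ _
        · intro θ _
          set t := ‖Pg δ L (Z (0, θ))‖
          have h1 : 1 / (2 * (1 + B)) * t ^ 2 + (1 + B) / 2 - t = (t - (1 + B)) ^ 2 / (2 * (1 + B)) := by
            field_simp; ring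
          have h2 : 0 ≤ (t - (1 + B)) ^ 2 / (2 * (1 + B)) := by positivity
          linarith
    _ = 1 / (2 * (1 + B)) * (∫ θ in (0:ℝ)..(2 * π), ‖Pg δ L (Z (0, θ))‖ ^ 2) + 2 * π * ((1 + B) / 2) := by
        have i1 := intervalIntegral.integral_add (μ := volume) (a := 0) (b := 2 * π)
          (f := fun θ : ℝ => 1 / (2 * (1 + B)) * ‖Pg δ L (Z (0, θ))‖ ^ 2)
          (g := fun _ => (1 + B) / 2) ((continuous_const.mul (hc.norm.pow 2)).intervalIntegrable _ _)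
          (by simp)
        rw [i1, intervalIntegral.integral_const_mul, intervalIntegral.integral_const, smul_eq_mul,
          sub_zero]
    _ ≤ 1 / (2 * (1 + B)) * (2 * π * B ^ 2) + 2 * π * ((1 + B) / 2) := by
        have := circle_Pg2 δ L
        rw [← Bg_sq] at this
        have := mul_le_mul_of_nonneg_left this (by positivity : 0 ≤ 1 / (2 * (1 + B)))
        linarith
    _ ≤ 2 * π * (1 + B) := by
        have h1 : B ^ 2 / (2 * (1 + B)) ≤ (1 + B) / 2 := by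
          rw [div_le_div_iff₀ (by positivity) (by norm_num)]; nlinarith
        have h2 := mul_le_mul_of_nonneg_left h1 hpi
        have e : 1 / (2 * (1 + B)) * (2 * π * B ^ 2) = 2 * π * (B ^ 2 / (2 * (1 + B))) := by ring
        rw [e]; linarith

theorem circle_sqrt_pg (δ : ℕ → ℂ) {L : ℕ} (hL : 1 ≤ L) :
    ∫ θ in (0:ℝ)..(2 * π), √‖pg δ L (Z (0, θ))‖ ≤ 2 * π * √(L * (1 + Bg δ L)) := by
  have hpi : (0:ℝ) ≤ 2 * π := by positivity
  set B := Bg δ L with hB
  have hB0 : 0 ≤ B := Bg_nonneg δ L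
  have hL0 : (0:ℝ) < L := by exact_mod_cast hL
  set m := √(L * (1 + B)) with hm
  have hm0 : 0 < m := Real.sqrt_pos.2 (by positivity)
  have hm2 : m ^ 2 = L * (1 + B) := Real.sq_sqrt (by positivity)
  have hc : Continuous (fun θ : ℝ => pg δ L (Z (0, θ))) :=
    (continuous_pg δ L).comp (continuous_Z.comp (by fun_prop))
  calc ∫ θ in (0:ℝ)..(2 * π), √‖pg δ L (Z (0, θ))‖
      ≤ ∫ θ in (0:ℝ)..(2 * π), (1 / (4 * m ^ 3) * ‖pg δ L (Z (0, θ))‖ ^ 2 + 3 / 4 * m) := by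
        apply intervalIntegral.integral_mono_on hpi (hc.norm.sqrt.intervalIntegrable _ _)
        · exact ((continuous_const.mul (hc.norm.pow 2)).add continuous_const).intervalIntegrable _ _
        · intro θ _
          set t := ‖pg δ L (Z (0, θ))‖
          set y := √t with hy
          have hy0 : 0 ≤ y := Real.sqrt_nonneg _
          have ht : t = y ^ 2 := (Real.sq_sqrt (norm_nonneg _)).symm
          rw [ht]
          have h1 : 1 / (4 * m ^ 3) * (y ^ 2) ^ 2 + 3 / 4 * m - y =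
              ((y - m) ^ 2 * (y ^ 2 + 2 * m * y + 3 * m ^ 2)) / (4 * m ^ 3) := by
            field_simp; ring
          have h2 : 0 ≤ ((y - m) ^ 2 * (y ^ 2 + 2 * m * y + 3 * m ^ 2)) / (4 * m ^ 3) := by positivity
          linarith
    _ = 1 / (4 * m ^ 3) * (∫ θ in (0:ℝ)..(2 * π), ‖pg δ L (Z (0, θ))‖ ^ 2) + 2 * π * (3 / 4 * m) := by
        have i1 := intervalIntegral.integral_add (μ := volume) (a := 0) (b := 2 * π)
          (f := fun θ : ℝ => 1 / (4 * m ^ 3) * ‖pg δ L (Z (0, θ))‖ ^ 2)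
          (g := fun _ => 3 / 4 * m) ((continuous_const.mul (hc.norm.pow 2)).intervalIntegrable _ _)
          (by simp)
        rw [i1, intervalIntegral.integral_const_mul, intervalIntegral.integral_const, smul_eq_mul,
          sub_zero]
    _ ≤ 1 / (4 * m ^ 3) * (2 * π * (L ^ 2 * B ^ 2)) + 2 * π * (3 / 4 * m) := by
        have := circle_pg δ L
        rw [← Bg_sq] at this
        have := mul_le_mul_of_nonneg_left this (by positivity : 0 ≤ 1 / (4 * m ^ 3))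
        linarith
    _ ≤ 2 * π * m := by
        have h1 : L ^ 2 * B ^ 2 / (4 * m ^ 3) ≤ m / 4 := by
          rw [div_le_div_iff₀ (by positivity) (by norm_num)]
          have e : m * (4 * m ^ 3) = 4 * (L * (1 + B)) ^ 2 := by rw [← hm2]; ring
          rw [e]
          nlinarith [mul_pos hL0 hL0]
        have h2 := mul_le_mul_of_nonneg_left h1 hpi
        have e : 1 / (4 * m ^ 3) * (2 * π * (L ^ 2 * B ^ 2)) =
            2 * π * (L ^ 2 * B ^ 2 / (4 * m ^ 3)) := by ring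
        rw [e]; linarith


end

end Pool.Agent.K3h99.Leh
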