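import Pool.Agent.K3h99.Leh.Final
import Pool.Agent.K3h99.Leh2.Lim2

/-!
From the comparison theorem to polynomials.
-/

set_option autoImplicit false

namespace Pool.Agent.K3h99.Leh

open Complex MeasureTheory Metric Set Filter Topology ComplexConjugate InnerProductSpace Real
open Polynomial

noncomputable section

/-- mean of `log⁺ |F|` over the unit circle -/
def mp (F : ℂ[X]) : ℝ := Real.circleAverage (fun z => Real.posLog ‖F.eval z‖) 0 1

lemma mp_nonneg (F : ℂ[X]) : 0 ≤ mp F :=
  Real.circleAverage_nonneg_of_nonneg fun _ _ => Real.posLog_nonneg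

/-- distance of the first power sums -/
def Bd (F G : ℂ[X]) (L : ℕ) : ℝ :=
  √(∑ k ∈ Finset.Ico 1 L, ‖psum F k - psum G k‖ ^ 2 / (k:ℝ) ^ 2)

lemma Tm_eq {N : ℕ} (α : Fin N → ℂ) :
    Tm α = Real.circleAverage (fun z => Real.posLog ‖∏ i, (z - α i)‖) 0 1 := by
  rw [← Real.circleAverage_zero_one_congr_inv (f := fun z => Real.posLog ‖∏ i, (z - α i)‖)]
  have e : Tm α = Real.circleAverage (fun z => Real.posLog ‖∏ i, (1 - α i * z)‖) 0 1 := by
    unfold Tm Real.circleAverage
    rw [smul_eq_mul]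
  rw [e]
  apply Real.circleAverage_congr_sphere
  intro z hz
  have hz1 : ‖z‖ = 1 := by simpa using hz
  have hz0 : z ≠ 0 := by
    rintro rfl; simp at hz1
  simp only []
  congr 1
  rw [norm_prod, norm_prod]
  apply Finset.prod_congr rfl
  intro i _
  have h1 : 1 - α i * z = z * (z⁻¹ - α i) := by field_simp
  rw [h1, norm_mul, hz1, one_mul]

lemma eval_enum (F : ℂ[X]) {N : ℕ} {α : Fin N → ℂ} (hα : F.roots = Finset.univ.val.map α) (z : ℂ) :
    F.eval z = F.leadingCoeff * ∏ i, (z - α i) := by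
  conv_lhs => rw [(IsAlgClosed.splits F).eq_prod_roots]
  rw [Polynomial.eval_mul, Polynomial.eval_C, Polynomial.eval_multiset_prod, Multiset.map_map]
  congr 1
  rw [hα, Multiset.map_map]
  rw [Finset.prod_eq_multiset_prod]
  simp

lemma ep_enum (F : ℂ[X]) (hF : F ≠ 0) (hlc : ‖F.leadingCoeff‖ = 1) {N : ℕ} {α : Fin N → ℂ}
    (hα : F.roots = Finset.univ.val.map α) : ep α = Real.log F.mahlerMeasure := by
  have h1 := Polynomial.mahlerMeasure_eq_leadingCoeff_mul_prod_roots F
  rw [hlc, one_mul] at h1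
  rw [h1, hα, Multiset.map_map]
  have h3 : (Multiset.map ((fun a => max 1 ‖a‖) ∘ α) Finset.univ.val).prod = ∏ i, max 1 ‖α i‖ := by
    rw [Finset.prod_eq_multiset_prod]; rfl
  rw [h3, Real.log_prod]
  · unfold ep
    apply Finset.sum_congr rfl
    intro i _
    rw [Real.posLog_eq_log_max_one (norm_nonneg _)]
  · intro i _
    have := le_max_left 1 ‖α i‖
    linarith

lemma psum_enum (F : ℂ[X]) {N : ℕ} {α : Fin N → ℂ} (hα : F.roots = Finset.univ.val.map α) (k : ℕ) :
    psum F k = pk α k := by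
  unfold psum pk
  conv_lhs => rw [hα, Multiset.map_map]
  rw [Finset.sum_eq_multiset_sum]; rfl

/-- the comparison theorem for polynomials -/
theorem comparison (F G : ℂ[X]) (hlc : 1 ≤ ‖F.leadingCoeff‖)
    (hlg : 1 ≤ ‖G.leadingCoeff‖) (hd : G.natDegree ≤ F.natDegree) {L : ℕ}
    (hL : 1 ≤ L) (hLn : L ≤ F.natDegree) :
    mp F ≤ 100 * (((F.natDegree : ℝ) / L + Bd F G L) *
      (1 + (Real.log F.mahlerMeasure + mp G))) := by
  have hF0 : F ≠ 0 := by
    rintro rfl; simp at hlc; linarith
  obtain ⟨N, α, hN, hα⟩ := exists_enum F.roots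
  obtain ⟨M, β, hM', hβ⟩ := exists_enum G.roots
  have hcard : Multiset.card F.roots = F.natDegree := (splits_iff_card_roots.1 (IsAlgClosed.splits F))
  have hcard' : Multiset.card G.roots = G.natDegree := (splits_iff_card_roots.1 (IsAlgClosed.splits G))
  have hep : ep α = Real.log F.mahlerMeasure - Real.log ‖F.leadingCoeff‖ := by
    have h1 := Polynomial.mahlerMeasure_eq_leadingCoeff_mul_prod_roots F
    have h3 : (F.roots.map (fun a => max 1 ‖a‖)).prod = ∏ i, max 1 ‖α i‖ := by
      rw [hα, Multiset.map_map, Finset.prod_eq_multiset_prod]; rfl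
    have h4 : ∀ i, 0 < max 1 ‖α i‖ := fun i => lt_of_lt_of_le one_pos (le_max_left _ _)
    rw [h1, h3, Real.log_mul (by linarith) (Finset.prod_ne_zero_iff.2 fun i _ => (h4 i).ne'),
      Real.log_prod (fun i _ => (h4 i).ne')]
    unfold ep
    rw [add_sub_cancel_left]
    apply Finset.sum_congr rfl
    intro i _
    rw [Real.posLog_eq_log_max_one (norm_nonneg _)]
  have hc : Fintype.card (Fin N) = F.natDegree := by
    rw [Fintype.card_fin, hN, hcard]
  have hc' : Fintype.card (Fin M) = G.natDegree := by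
    rw [Fintype.card_fin, hM', hcard']
  have hT := T_bound3 α β hL (by rw [hc]; exact hLn) (by rw [hc, hc']; exact hd)
  rw [hc] at hT
  have hB : Bg (dl α β) L = Bd F G L := by
    unfold Bg B2g Bd dl
    congr 1
    apply Finset.sum_congr rfl
    intro k _
    rw [psum_enum F hα, psum_enum G hβ]
  rw [hB] at hT
  have hcont : ∀ {K : ℕ} (γ : Fin K → ℂ),
      CircleIntegrable (fun z => Real.posLog ‖∏ i, (z - γ i)‖) 0 1 := by
    intro K γ
    apply ContinuousOn.circleIntegrable zero_le_one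
    apply Continuous.continuousOn
    apply Real.continuous_posLog.comp
    apply Continuous.norm
    apply continuous_finsetProd
    intro i _
    fun_prop
  have hcontP : ∀ P : ℂ[X], CircleIntegrable (fun z => Real.posLog ‖P.eval z‖) 0 1 := by
    intro P
    apply ContinuousOn.circleIntegrable zero_le_one
    apply Continuous.continuousOn
    exact Real.continuous_posLog.comp (Polynomial.continuous P).norm
  have e1 : mp F ≤ Real.log ‖F.leadingCoeff‖ + Tm α := by
    rw [Tm_eq, ← Real.circleAverage_const (Real.log ‖F.leadingCoeff‖) (0:ℂ) 1,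
      ← Real.circleAverage_add (circleIntegrable_const _ _ _) (hcont α)]
    unfold mp
    apply Real.circleAverage_mono (hcontP F) ((circleIntegrable_const _ _ _).add (hcont α))
    intro z _
    simp only [Pi.add_apply]
    rw [eval_enum F hα, norm_mul]
    refine (Real.posLog_mul).trans ?_
    rw [Real.posLog_eq_log (by rw [abs_of_nonneg (norm_nonneg _)]; exact hlc)]
  have e2 : Tm β ≤ mp G := by
    rw [Tm_eq]
    unfold mp
    apply Real.circleAverage_mono (hcont β) (hcontP G)
    intro z _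
    apply Real.posLog_le_posLog (norm_nonneg _)
    rw [eval_enum G hβ, norm_mul]
    exact le_mul_of_one_le_left (norm_nonneg _) hlg
  have hlog : 0 ≤ Real.log ‖F.leadingCoeff‖ := Real.log_nonneg hlc
  obtain ⟨x, hx⟩ : ∃ x : ℝ, x = (F.natDegree : ℝ) / L + Bd F G L := ⟨_, rfl⟩
  rw [← hx] at hT ⊢
  have hx1 : 1 ≤ x := by
    have hL0 : (0:ℝ) < L := by exact_mod_cast hL
    have h1 : (1:ℝ) ≤ (F.natDegree : ℝ) / L := by
      rw [le_div_iff₀ hL0, one_mul]; exact_mod_cast hLn
    have h2 : 0 ≤ Bd F G L := Real.sqrt_nonneg _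
    rw [hx]; linarith
  rw [hep] at hT
  have h5 : 100 * (x * (1 + (Real.log F.mahlerMeasure - Real.log ‖F.leadingCoeff‖ + Tm β))) ≤
      100 * (x * (1 + (Real.log F.mahlerMeasure + mp G))) - Real.log ‖F.leadingCoeff‖ := by
    have h6 : x * Tm β ≤ x * mp G := mul_le_mul_of_nonneg_left e2 (by linarith)
    nlinarith
  linarith

/-- `m⁺(f) + m(h) ≤ m⁺(f h) + m⁺(h)` -/
lemma mp_mul (f h : ℂ[X]) (hh : h ≠ 0) :
    mp f + Real.log h.mahlerMeasure ≤ mp (f * h) + mp h := by
  rw [← logMahlerMeasure_eq_log_MahlerMeasure, logMahlerMeasure_def]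
  have hcontP : ∀ P : ℂ[X], CircleIntegrable (fun z => Real.posLog ‖P.eval z‖) 0 1 := by
    intro P
    apply ContinuousOn.circleIntegrable zero_le_one
    apply Continuous.continuousOn
    exact Real.continuous_posLog.comp (Polynomial.continuous P).norm
  have hlog : CircleIntegrable (fun z => Real.log ‖h.eval z‖) 0 1 :=
    h.intervalIntegrable_mahlerMeasure
  unfold mp
  rw [← Real.circleAverage_add (hcontP f) hlog, ← Real.circleAverage_add (hcontP _) (hcontP h)]
  unfold Real.circleAverage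
  rw [smul_eq_mul, smul_eq_mul]
  apply mul_le_mul_of_nonneg_left _ (by positivity)
  apply intervalIntegral.integral_mono_ae_restrict (by positivity)
  · exact (hcontP f).add hlog
  · exact (hcontP _).add (hcontP h)
  rw [Filter.EventuallyLE, MeasureTheory.ae_restrict_iff' measurableSet_Icc]
  have hne : ∀ᵐ θ : ℝ, θ ∈ Set.Icc 0 (2 * π) → θ ≠ 2 * π → h.eval (circleMap 0 1 θ) ≠ 0 := by
    rw [MeasureTheory.ae_iff]
    apply Set.Finite.measure_zero _ MeasureTheory.volume
    apply Set.Finite.of_finite_image (f := circleMap 0 1)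
    · apply h.roots.finite_toSet.subset
      rintro _ ⟨θ, hθ, rfl⟩
      simp only [Classical.not_imp, not_not, Set.mem_setOf_eq] at hθ
      simp only [Set.mem_setOf_eq]
      rw [mem_roots hh]
      exact hθ.2.2
    · intro x hx y hy hxy
      simp only [Classical.not_imp, not_not, Set.mem_setOf_eq] at hx hy
      have hx2 : x < 2 * π := lt_of_le_of_ne hx.1.2 hx.2.1
      have hy2 : y < 2 * π := lt_of_le_of_ne hy.1.2 hy.2.1
      exact (injOn_circleMap_of_abs_sub_le' (c := (0:ℂ)) (R := 1) (a := 0) (b := 2 * π)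
        one_ne_zero (by simp)) ⟨hx.1.1, hx2⟩ ⟨hy.1.1, hy2⟩ hxy
  have hne2 : ∀ᵐ θ : ℝ, θ ≠ 2 * π := by
    rw [MeasureTheory.ae_iff]
    simp
  filter_upwards [hne, hne2] with θ h1 h2 h3
  have h4 := h1 h3 h2
  simp only [Pi.add_apply, eval_mul, norm_mul]
  have h5 : 0 < ‖h.eval (circleMap 0 1 θ)‖ := norm_pos_iff.2 h4
  rcases le_or_gt ‖f.eval (circleMap 0 1 θ)‖ 1 with h6 | h6
  · rw [(Real.posLog_eq_zero_iff _).2 (by rwa [abs_of_nonneg (norm_nonneg _)])]
    have h7 : Real.log ‖h.eval (circleMap 0 1 θ)‖ ≤ Real.posLog ‖h.eval (circleMap 0 1 θ)‖ := by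
      rw [Real.posLog_apply]; exact le_max_right _ _
    have h8 : 0 ≤ Real.posLog (‖f.eval (circleMap 0 1 θ)‖ * ‖h.eval (circleMap 0 1 θ)‖) :=
      Real.posLog_nonneg
    linarith
  · rw [Real.posLog_eq_log (by rw [abs_of_nonneg (norm_nonneg _)]; exact h6.le)]
    have h7 : Real.log (‖f.eval (circleMap 0 1 θ)‖ * ‖h.eval (circleMap 0 1 θ)‖) ≤
        Real.posLog (‖f.eval (circleMap 0 1 θ)‖ * ‖h.eval (circleMap 0 1 θ)‖) := by
      rw [Real.posLog_apply]; exact le_max_right _ _
    rw [Real.log_mul (by linarith) h5.ne'] at h7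
    have h8 : 0 ≤ Real.posLog ‖h.eval (circleMap 0 1 θ)‖ := Real.posLog_nonneg
    linarith

/-- same top coefficients, same power sums -/
lemma esymm_eq (F G : ℂ[X]) {L : ℕ} (hL : 1 ≤ L) (hLn : L ≤ F.natDegree)
    (h : (F - G).natDegree ≤ F.natDegree - L) :
    G.natDegree = F.natDegree ∧ G.leadingCoeff = F.leadingCoeff ∧
      ∀ j, 1 ≤ j → j < L → F.roots.esymm j = G.roots.esymm j := by
  have hF0 : F ≠ 0 := by
    rintro rfl
    rw [natDegree_zero] at hLn; omega
  have hco : ∀ j, j < L → F.coeff (F.natDegree - j) = G.coeff (F.natDegree - j) := by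
    intro j hj
    have h1 : (F - G).coeff (F.natDegree - j) = 0 := by
      apply coeff_eq_zero_of_natDegree_lt
      omega
    rwa [coeff_sub, sub_eq_zero] at h1
  have hlc : F.leadingCoeff ≠ 0 := leadingCoeff_ne_zero.2 hF0
  have h0 := hco 0 (by omega)
  rw [Nat.sub_zero] at h0
  have hdeg : G.natDegree = F.natDegree := by
    apply le_antisymm
    · by_contra hcon
      push Not at hcon
      have h2 : (F - G).natDegree = G.natDegree := by
        rw [← natDegree_neg, neg_sub]
        exact natDegree_sub_eq_left_of_natDegree_lt hcon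
      omega
    · apply le_natDegree_of_ne_zero
      rw [← h0]; exact hlc
  have hlcG : G.leadingCoeff = F.leadingCoeff := by
    unfold leadingCoeff
    rw [hdeg, h0]
  refine ⟨hdeg, hlcG, ?_⟩
  intro j h1 h2
  have e1 := Polynomial.coeff_eq_esymm_roots_of_splits (IsAlgClosed.splits F)
    (k := F.natDegree - j) (Nat.sub_le _ _)
  have e2 : F.natDegree - (F.natDegree - j) = j := by omega
  have e3 := Polynomial.coeff_eq_esymm_roots_of_splits (IsAlgClosed.splits G)
    (k := F.natDegree - j) (by rw [hdeg]; exact Nat.sub_le _ _)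
  rw [hdeg, e2, hlcG, ← hco j h2, e1, e2] at e3
  have h5 : F.leadingCoeff * (-1 : ℂ) ^ j ≠ 0 := mul_ne_zero hlc (pow_ne_zero j (by norm_num))
  exact mul_left_cancel₀ h5 e3

lemma Bd_top (F G : ℂ[X]) {L : ℕ} (hL : 1 ≤ L) (hLn : L ≤ F.natDegree)
    (h : (F - G).natDegree ≤ F.natDegree - L) : Bd F G L = 0 := by
  obtain ⟨_, _, h3⟩ := esymm_eq F G hL hLn h
  unfold Bd
  rw [Real.sqrt_eq_zero']
  apply le_of_eq
  apply Finset.sum_eq_zero
  intro k hk
  rw [Finset.mem_Ico] at hk
  have h4 : psum F k = psum G k := psum_congr h3 k hk.1 hk.2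
  rw [h4, sub_self, norm_zero]
  simp

end

end Pool.Agent.K3h99.Leh
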